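import Pool.Agent.H46.PF.Fac

/-!
# Sums of distinct factorials: the bits `q - 1 - j`
-/

namespace H46.PF

open Finset

/-- `∑_{j ∈ U} (-1)^j D!/j!` -/
def MM (D : ℕ) (U : Finset ℕ) : ℤ := ∑ j ∈ U, (-1) ^ j * ((D.factorial / j.factorial : ℕ) : ℤ)

/-- the bits `q-1-j`, `j ∈ U` -/
def top (q : ℕ) (U : Finset ℕ) : Finset ℕ := U.image (fun j => q - 1 - j)

/-- the difference of two indicators -/
private def h61e (U V : Finset ℕ) (j : ℕ) : ℤ :=
  (if j ∈ U then 1 else 0) - (if j ∈ V then 1 else 0)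

private theorem h61_sub {D : ℕ} {U V : Finset ℕ} (hU : U ⊆ Icc 2 D) (hV : V ⊆ Icc 2 D) :
    MM D U - MM D V
      = ∑ j ∈ Icc 2 D, h61e U V j * ((-1) ^ j * ((D.factorial / j.factorial : ℕ) : ℤ)) := by
  have h1 : ∀ W : Finset ℕ, W ⊆ Icc 2 D → MM D W
      = ∑ j ∈ Icc 2 D, (if j ∈ W then (1 : ℤ) else 0)
        * ((-1) ^ j * ((D.factorial / j.factorial : ℕ) : ℤ)) := by
    intro W hW
    unfold MM
    simp only [ite_mul, one_mul, zero_mul]
    rw [← sum_filter, filter_mem_eq_inter, inter_eq_right.2 hW]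
  rw [h1 U hU, h1 V hV, ← sum_sub_distrib]
  refine sum_congr rfl fun j _ => ?_
  unfold h61e
  ring

private theorem h61_abs (U V : Finset ℕ) (j : ℕ) : |h61e U V j| ≤ 1 := by
  unfold h61e
  split_ifs <;> norm_num

theorem MM_ne {D : ℕ} {U V : Finset ℕ} (hU : U ⊆ Icc 2 D) (hV : V ⊆ Icc 2 D) (h : U ≠ V) :
    MM D U - MM D V ≠ 0 := by
  classical
  rw [h61_sub hU hV]
  -- the largest index at which the sets differ
  have hne : ((Icc 2 D).filter fun j => h61e U V j ≠ 0).Nonempty := by
    by_contra hemp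
    rw [not_nonempty_iff_eq_empty, filter_eq_empty_iff] at hemp
    apply h
    ext j
    by_cases hj : j ∈ Icc 2 D
    · have h1 := hemp hj
      rw [not_not] at h1
      unfold h61e at h1
      by_cases h2 : j ∈ U
      · by_cases h3 : j ∈ V
        · exact ⟨fun _ => h3, fun _ => h2⟩
        · rw [if_pos h2, if_neg h3] at h1; norm_num at h1
      · by_cases h3 : j ∈ V
        · rw [if_neg h2, if_pos h3] at h1; norm_num at h1
        · exact ⟨fun h => absurd h h2, fun h => absurd h h3⟩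
    · exact ⟨fun h => absurd (hU h) hj, fun h => absurd (hV h) hj⟩
  obtain ⟨j1, hj1, hmax⟩ := exists_max_image _ (fun j => j) hne
  rw [mem_filter] at hj1
  have hj1I := mem_Icc.1 hj1.1
  -- everything else is divisible by `j1 * (D!/j1!)`
  have hdvd : ((D.factorial / j1.factorial * j1 : ℕ) : ℤ) ∣
      ∑ j ∈ (Icc 2 D).erase j1, h61e U V j * ((-1) ^ j * ((D.factorial / j.factorial : ℕ) : ℤ)) := by
    refine dvd_sum fun j hj => ?_
    have hjI := mem_Icc.1 (mem_of_mem_erase hj)
    have hjne := ne_of_mem_erase hj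
    rcases Nat.lt_or_ge j j1 with hlt | hge
    · have h2 : D.factorial / j1.factorial * j1 ∣ D.factorial / j.factorial := by
        have h3 : D.factorial / j.factorial
            = (D.factorial / j1.factorial) * (j1.factorial / j.factorial) := by
          have e1 := Nat.div_mul_cancel (Nat.factorial_dvd_factorial hj1I.2)
          have e2 := Nat.div_mul_cancel (Nat.factorial_dvd_factorial hlt.le)
          have e3 : D.factorial = (D.factorial / j1.factorial) * (j1.factorial / j.factorial)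
              * j.factorial := by
            rw [mul_assoc, e2, e1]
          conv_lhs => rw [e3]
          rw [Nat.mul_div_cancel _ (Nat.factorial_pos j)]
        rw [h3]
        refine mul_dvd_mul_left _ ?_
        have h4 : j1.factorial / j.factorial = (j1 - 1).factorial / j.factorial * j1 := by
          have e1 : j1.factorial = j1 * (j1 - 1).factorial := (Nat.mul_factorial_pred (by omega)).symm
          rw [e1, Nat.mul_div_assoc _ (Nat.factorial_dvd_factorial (by omega)), mul_comm]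
        rw [h4]
        exact dvd_mul_left _ _
      exact Dvd.dvd.mul_left (Dvd.dvd.mul_left (Int.natCast_dvd_natCast.2 h2) _) _
    · have h2 : h61e U V j = 0 := by
        by_contra h3
        have h4 : j ≤ j1 := hmax j (mem_filter.2 ⟨mem_Icc.2 hjI, h3⟩)
        omega
      rw [h2, zero_mul]
      exact dvd_zero _
  intro h0
  rw [← add_sum_erase _ _ hj1.1] at h0
  have h5 : ((D.factorial / j1.factorial * j1 : ℕ) : ℤ) ∣
      h61e U V j1 * ((-1) ^ j1 * ((D.factorial / j1.factorial : ℕ) : ℤ)) := by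
    have h6 := eq_neg_of_add_eq_zero_left h0
    rw [h6]
    exact (dvd_neg).2 hdvd
  have hpos : 0 < D.factorial / j1.factorial :=
    Nat.div_pos (Nat.factorial_le hj1I.2) (Nat.factorial_pos _)
  have h7 := Int.natAbs_dvd_natAbs.2 h5
  rw [Int.natAbs_natCast, Int.natAbs_mul, Int.natAbs_mul, Int.natAbs_pow, Int.natAbs_neg,
    Int.natAbs_one, one_pow, one_mul, Int.natAbs_natCast] at h7
  have h8 : (h61e U V j1).natAbs = 1 := by
    have h9 := h61_abs U V j1
    have h10 : h61e U V j1 ≠ 0 := hj1.2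
    rw [abs_le] at h9
    omega
  rw [h8, one_mul] at h7
  have h11 := Nat.le_of_dvd hpos h7
  have h12 : D.factorial / j1.factorial * 2 ≤ D.factorial / j1.factorial * j1 :=
    Nat.mul_le_mul_left _ hj1I.1
  omega

theorem MM_le {D : ℕ} {U V : Finset ℕ} (hU : U ⊆ Icc 2 D) (hV : V ⊆ Icc 2 D) :
    |MM D U - MM D V| ≤ ((D * D.factorial : ℕ) : ℤ) := by
  rw [h61_sub hU hV]
  refine (abs_sum_le_sum_abs _ _).trans ?_
  have h1 : ∀ j ∈ Icc 2 D, |h61e U V j * ((-1) ^ j * ((D.factorial / j.factorial : ℕ) : ℤ))|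
      ≤ (D.factorial : ℤ) := by
    intro j _
    rw [abs_mul, abs_mul, abs_pow, abs_neg, abs_one, one_pow, one_mul, Nat.abs_cast]
    have h2 : ((D.factorial / j.factorial : ℕ) : ℤ) ≤ D.factorial := by
      exact_mod_cast Nat.div_le_self _ _
    calc |h61e U V j| * ((D.factorial / j.factorial : ℕ) : ℤ)
        ≤ 1 * ((D.factorial / j.factorial : ℕ) : ℤ) :=
          mul_le_mul_of_nonneg_right (h61_abs U V j) (by positivity)
      _ ≤ _ := by rw [one_mul]; exact h2
  refine (sum_le_card_nsmul _ _ _ h1).trans ?_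
  rw [Nat.card_Icc, nsmul_eq_mul]
  push_cast
  refine mul_le_mul_of_nonneg_right ?_ (by positivity)
  have : D + 1 - 2 ≤ D := by omega
  exact_mod_cast this

private theorem h61_top {q D : ℕ} [Fact q.Prime] (hD : D < q) {U : Finset ℕ} (hU : U ⊆ Icc 2 D) :
    ((F (top q U) : ℕ) : ZMod q) * ((D.factorial : ℕ) : ZMod q) = - ((MM D U : ℤ) : ZMod q) := by
  unfold F top MM
  rw [sum_image (fun a ha b hb hab => by
    have h1 := mem_Icc.1 (hU ha)
    have h2 := mem_Icc.1 (hU hb)
    have h3 : q - 1 - a = q - 1 - b := hab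
    omega)]
  simp only [Int.cast_sum, Int.cast_mul, Int.cast_pow, Int.cast_neg, Int.cast_one,
    Int.cast_natCast, Nat.cast_sum]
  rw [sum_mul, ← sum_neg_distrib]
  refine sum_congr rfl fun j hj => ?_
  have hjI := mem_Icc.1 (hU hj)
  have h1 := fac_top (q := q) (j := j) (by omega)
  have h2 : ((D.factorial : ℕ) : ZMod q)
      = ((D.factorial / j.factorial : ℕ) : ZMod q) * ((j.factorial : ℕ) : ZMod q) := by
    rw [← Nat.cast_mul, Nat.div_mul_cancel (Nat.factorial_dvd_factorial hjI.2)]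
  rw [h2, mul_comm (((D.factorial / j.factorial : ℕ) : ZMod q)), ← mul_assoc, h1, pow_succ]
  ring

theorem top_eq {q D : ℕ} [Fact q.Prime] (hD : D < q) {U V : Finset ℕ} (hU : U ⊆ Icc 2 D)
    (hV : V ⊆ Icc 2 D) : ((F (top q U) : ℕ) : ZMod q) = ((F (top q V) : ℕ) : ZMod q) ↔
      (q : ℤ) ∣ MM D U - MM D V := by
  have h1 := h61_top hD hU
  have h2 := h61_top hD hV
  have h3 := fac_ne (q := q) hD
  rw [← ZMod.intCast_zmod_eq_zero_iff_dvd]
  push_cast
  rw [sub_eq_zero]
  constructor
  · intro h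
    rw [h, h2] at h1
    exact (neg_injective h1).symm
  · intro h
    rw [← h] at h2
    exact mul_right_cancel₀ h3 (h1.trans h2.symm)

private theorem h61_card {q D : ℕ} (hD : D < q) : (top q (Icc 2 D)).card = D - 1 := by
  unfold top
  rw [card_image_of_injOn (fun a ha b hb hab => by
    have h1 := mem_Icc.1 (mem_coe.1 ha)
    have h2 := mem_Icc.1 (mem_coe.1 hb)
    have h3 : q - 1 - a = q - 1 - b := hab
    omega), Nat.card_Icc]
  omega

private theorem h61_pre {q D : ℕ} (X : Finset ℕ) (hX : X ⊆ top q (Icc 2 D)) :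
    ∃ U ⊆ Icc 2 D, top q U = X := by
  refine ⟨(Icc 2 D).filter fun j => q - 1 - j ∈ X, filter_subset _ _, ?_⟩
  ext n
  unfold top
  rw [mem_image]
  constructor
  · rintro ⟨j, hj, rfl⟩
    exact (mem_filter.1 hj).2
  · intro hn
    obtain ⟨j, hj, rfl⟩ := mem_image.1 (hX hn)
    exact ⟨j, mem_filter.2 ⟨hj, hn⟩, rfl⟩

theorem near {q D : ℕ} [Fact q.Prime] (h2 : 2 ≤ D) (hD : D * D.factorial < q) (r : ZMod q) :
    Ex (top q (Icc 2 D)) (fun X => ind (((F X : ℕ) : ZMod q) = r)) ≤ 1 / 2 ^ (D - 1) := by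
  classical
  have hDq : D < q := by
    refine lt_of_le_of_lt ?_ hD
    exact Nat.le_mul_of_pos_right _ (Nat.factorial_pos D)
  rw [Ex_ind, h61_card hDq]
  refine div_le_div_of_nonneg_right ?_ (by positivity)
  have h1 : ((top q (Icc 2 D)).powerset.filter (fun X => ((F X : ℕ) : ZMod q) = r)).card ≤ 1 := by
    rw [card_le_one]
    intro X hX Y hY
    rw [mem_filter, mem_powerset] at hX hY
    obtain ⟨U, hU, rfl⟩ := h61_pre X hX.1
    obtain ⟨V, hV, rfl⟩ := h61_pre Y hY.1
    by_cases hUV : U = V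
    · rw [hUV]
    · exfalso
      have h3 := (top_eq hDq hU hV).1 (hX.2.trans hY.2.symm)
      have h4 := MM_ne hU hV hUV
      have h5 := MM_le hU hV
      have h6 := Int.le_of_dvd (abs_pos.2 h4) ((dvd_abs _ _).2 h3)
      have h7 : ((D * D.factorial : ℕ) : ℤ) < (q : ℤ) := by exact_mod_cast hD
      linarith
  exact_mod_cast h1

end H46.PF
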