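import Pool.Agent.H46.PF.Top

/-!
# Sums of distinct factorials: collision probabilities
-/

namespace H46.PF

open Finset

/-- collision probability of the bits `top q J` -/
noncomputable def Col (q : ℕ) (J : Finset ℕ) : ℝ :=
  Ex (top q J) (fun X => Ex (top q J) (fun Y =>
    ind (((F X : ℕ) : ZMod q) = ((F Y : ℕ) : ZMod q))))

private theorem h13_inj {q D : ℕ} (hD : D < q) {J : Finset ℕ} (hJ : J ⊆ Icc 2 D) :
    Set.InjOn (fun j => q - 1 - j) (J : Set ℕ) := by
  intro a ha b hb hab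
  have ha' := mem_Icc.mp (hJ (mem_coe.mp ha))
  have hb' := mem_Icc.mp (hJ (mem_coe.mp hb))
  have : q - 1 - a = q - 1 - b := hab
  omega

private theorem h13_top_inj {q D : ℕ} (hD : D < q) {J : Finset ℕ} (hJ : J ⊆ Icc 2 D) :
    Set.InjOn (top q) (J.powerset : Set (Finset ℕ)) := by
  intro U hU V hV hUV
  have hU' : U ⊆ J := mem_powerset.mp (mem_coe.mp hU)
  have hV' : V ⊆ J := mem_powerset.mp (mem_coe.mp hV)
  have key : ∀ U V : Finset ℕ, U ⊆ J → V ⊆ J → top q U = top q V → U ⊆ V := by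
    intro U V hU hV h j hj
    have h1 : q - 1 - j ∈ top q U := mem_image_of_mem _ hj
    rw [h] at h1
    unfold top at h1
    rw [mem_image] at h1
    obtain ⟨i, hi, hij⟩ := h1
    have : i = j := h13_inj hD hJ (mem_coe.mpr (hV hi)) (mem_coe.mpr (hU hj)) hij
    rw [← this]
    exact hi
  exact Subset.antisymm (key U V hU' hV' hUV) (key V U hV' hU' hUV.symm)

private theorem h13_Ex_top {q D : ℕ} (hD : D < q) {J : Finset ℕ} (hJ : J ⊆ Icc 2 D)
    (f : Finset ℕ → ℝ) : Ex (top q J) f = Ex J (fun U => f (top q U)) := by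
  have hp : (top q J).powerset = J.powerset.image (top q) := by
    ext X
    rw [mem_powerset, mem_image]
    constructor
    · intro hX
      refine ⟨J.filter (fun j => q - 1 - j ∈ X), mem_powerset.mpr (filter_subset _ _), ?_⟩
      ext n
      unfold top
      rw [mem_image]
      constructor
      · rintro ⟨j, hj, rfl⟩
        exact (mem_filter.mp hj).2
      · intro hn
        have := hX hn
        unfold top at this
        rw [mem_image] at this
        obtain ⟨j, hj, rfl⟩ := this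
        exact ⟨j, mem_filter.mpr ⟨hj, hn⟩, rfl⟩
    · rintro ⟨U, hU, rfl⟩
      unfold top
      exact image_subset_image (mem_powerset.mp hU)
  have hc : (top q J).card = J.card := card_image_of_injOn (h13_inj hD hJ)
  unfold Ex
  rw [hp, hc, sum_image (h13_top_inj hD hJ)]

private theorem h13_count {D y m : ℕ} (hy : 2 ≤ y) (P : Finset ℕ)
    (hP : ∀ q ∈ P, q.Prime ∧ y < q) (hm : D * D.factorial < y ^ (m + 1)) {U V : Finset ℕ}
    (hU : U ⊆ Icc 2 D) (hV : V ⊆ Icc 2 D) (hUV : U ≠ V) :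
    (P.filter (fun q : ℕ => (q : ℤ) ∣ MM D U - MM D V)).card ≤ m := by
  by_contra hcon
  rw [not_le] at hcon
  set S := P.filter (fun q : ℕ => (q : ℤ) ∣ MM D U - MM D V) with hS
  have hz := MM_ne hU hV hUV
  have hle := MM_le hU hV
  have hdvd : ∏ q ∈ S, q ∣ (MM D U - MM D V).natAbs := by
    refine Finset.prod_primes_dvd _ (fun q hq => ?_) (fun q hq => ?_)
    · exact (hP q (mem_filter.mp hq).1).1.prime
    · exact Int.natCast_dvd.mp (mem_filter.mp hq).2
  have h1 : ∏ q ∈ S, q ≤ (MM D U - MM D V).natAbs :=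
    Nat.le_of_dvd (Int.natAbs_pos.mpr hz) hdvd
  have h2 : (MM D U - MM D V).natAbs ≤ D * D.factorial := by
    have : ((MM D U - MM D V).natAbs : ℤ) ≤ ((D * D.factorial : ℕ) : ℤ) := by
      rw [Int.natCast_natAbs]
      exact hle
    exact_mod_cast this
  have h3 : y ^ S.card ≤ ∏ q ∈ S, q := by
    rw [← prod_const]
    exact prod_le_prod' (fun q hq => le_of_lt (hP q (mem_filter.mp hq).1).2)
  have h4 : y ^ (m + 1) ≤ y ^ S.card := Nat.pow_le_pow_right (by omega) hcon
  omega

theorem col_sum {D y m : ℕ} (hDy : D ≤ y) (hy : 2 ≤ y) (P : Finset ℕ)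
    (hP : ∀ q ∈ P, q.Prime ∧ y < q) (hm : D * D.factorial < y ^ (m + 1)) (J : Finset ℕ)
    (hJ : J ⊆ Icc 2 D) : ∑ q ∈ P, Col q J ≤ (P.card : ℝ) / 2 ^ J.card + m := by
  have hcol : ∀ q ∈ P, Col q J =
      (∑ U ∈ J.powerset, ∑ V ∈ J.powerset, ind ((q : ℤ) ∣ MM D U - MM D V)) /
        (2 ^ J.card * 2 ^ J.card) := by
    intro q hq
    obtain ⟨hqp, hyq⟩ := hP q hq
    have : Fact q.Prime := ⟨hqp⟩
    have hD : D < q := by omega
    unfold Col
    rw [h13_Ex_top hD hJ]
    have e1 : ∀ U ⊆ J, Ex (top q J) (fun Y =>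
        ind (((F (top q U) : ℕ) : ZMod q) = ((F Y : ℕ) : ZMod q))) =
        Ex J (fun V => ind ((q : ℤ) ∣ MM D U - MM D V)) := by
      intro U hU
      rw [h13_Ex_top hD hJ]
      exact Ex_congr (fun V hV => ind_congr (top_eq hD (hU.trans hJ) (hV.trans hJ)))
    rw [Ex_congr e1]
    unfold Ex
    rw [← sum_div, div_div]
  rw [sum_congr rfl hcol, ← sum_div, sum_comm]
  have hpos : (0 : ℝ) < 2 ^ J.card := by positivity
  have hmain : ∑ U ∈ J.powerset, ∑ q ∈ P, ∑ V ∈ J.powerset, ind ((q : ℤ) ∣ MM D U - MM D V) ≤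
      ∑ U ∈ J.powerset, ((P.card : ℝ) + 2 ^ J.card * m) := by
    refine sum_le_sum (fun U hU => ?_)
    have hU' := mem_powerset.mp hU
    rw [sum_comm]
    have hV : ∀ V ∈ J.powerset, ∑ q ∈ P, ind ((q : ℤ) ∣ MM D U - MM D V) ≤
        (if V = U then (P.card : ℝ) else 0) + m := by
      intro V hV
      have hV' := mem_powerset.mp hV
      split_ifs with h
      · have h1 : ∑ q ∈ P, ind ((q : ℤ) ∣ MM D U - MM D V) ≤ ∑ _q ∈ P, (1 : ℝ) :=
          sum_le_sum (fun q _ => ind_le_one _)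
        rw [sum_const, nsmul_eq_mul, mul_one] at h1
        have : (0 : ℝ) ≤ m := Nat.cast_nonneg m
        linarith
      · have h1 : ∑ q ∈ P, ind ((q : ℤ) ∣ MM D U - MM D V) =
            ((P.filter (fun q : ℕ => (q : ℤ) ∣ MM D U - MM D V)).card : ℝ) := by
          rw [card_filter]
          push_cast
          refine sum_congr rfl (fun q _ => ?_)
          unfold ind
          split_ifs <;> rfl
        rw [h1, zero_add]
        exact_mod_cast h13_count hy P hP hm (hU'.trans hJ) (hV'.trans hJ)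
          (fun h' => h h'.symm)
    refine le_trans (sum_le_sum hV) ?_
    rw [sum_add_distrib, sum_ite_eq' J.powerset U, if_pos hU, sum_const, card_powerset,
      nsmul_eq_mul]
    push_cast
    exact le_rfl
  rw [sum_const, card_powerset, nsmul_eq_mul] at hmain
  push_cast at hmain
  rw [div_le_iff₀ (by positivity)]
  refine le_trans hmain (le_of_eq ?_)
  field_simp

end H46.PF
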