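import Mathlib

/-!
# Sums of distinct factorials: averages over subsets
-/

namespace H46.PF

open Finset

/-- Average of `f` over the subsets of `I`. -/
noncomputable def Ex (I : Finset ℕ) (f : Finset ℕ → ℝ) : ℝ :=
  (∑ X ∈ I.powerset, f X) / 2 ^ I.card

open Classical in
/-- Indicator of a proposition. -/
noncomputable def ind (p : Prop) : ℝ := if p then 1 else 0

/-- The sum of the factorials of the elements of `X`. -/
def F (X : Finset ℕ) : ℕ := ∑ n ∈ X, n.factorial

theorem ind_nonneg (p : Prop) : 0 ≤ ind p := by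
  unfold ind
  split_ifs <;> norm_num

theorem ind_le_one (p : Prop) : ind p ≤ 1 := by
  unfold ind
  split_ifs <;> norm_num

theorem ind_true {p : Prop} (h : p) : ind p = 1 := by
  unfold ind
  rw [if_pos h]

theorem ind_false {p : Prop} (h : ¬ p) : ind p = 0 := by
  unfold ind
  rw [if_neg h]

theorem ind_congr {p q : Prop} (h : p ↔ q) : ind p = ind q := by
  by_cases hq : q
  · rw [ind_true (h.mpr hq), ind_true hq]
  · rw [ind_false (fun hp => hq (h.mp hp)), ind_false hq]

theorem ind_mono {p q : Prop} (h : p → q) : ind p ≤ ind q := by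
  by_cases hp : p
  · rw [ind_true hp, ind_true (h hp)]
  · rw [ind_false hp]
    exact ind_nonneg q

theorem F_empty : F ∅ = 0 := by
  unfold F
  rw [sum_empty]

theorem F_union {X Y : Finset ℕ} (h : Disjoint X Y) : F (X ∪ Y) = F X + F Y := by
  unfold F
  rw [sum_union h]

theorem F_insert {a : ℕ} {X : Finset ℕ} (h : a ∉ X) : F (insert a X) = a.factorial + F X := by
  unfold F
  rw [sum_insert h]

theorem Ex_empty (f : Finset ℕ → ℝ) : Ex ∅ f = f ∅ := by
  unfold Ex
  simp

theorem Ex_insert {a : ℕ} {I : Finset ℕ} (ha : a ∉ I) (f : Finset ℕ → ℝ) :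
    Ex (insert a I) f = (Ex I f + Ex I (fun X => f (insert a X))) / 2 := by
  unfold Ex
  rw [sum_powerset_insert ha, card_insert_of_notMem ha, pow_succ]
  field_simp

theorem Ex_congr {I : Finset ℕ} {f g : Finset ℕ → ℝ} (h : ∀ X ⊆ I, f X = g X) :
    Ex I f = Ex I g := by
  unfold Ex
  congr 1
  exact sum_congr rfl (fun X hX => h X (mem_powerset.mp hX))

theorem Ex_union {I J : Finset ℕ} (h : Disjoint I J) (f : Finset ℕ → ℝ) :
    Ex (I ∪ J) f = Ex I (fun X => Ex J (fun Y => f (X ∪ Y))) := by
  induction I using Finset.induction_on generalizing f with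
  | empty =>
    rw [Ex_empty, empty_union]
    exact Ex_congr (fun X _ => by rw [empty_union])
  | insert a I ha ih =>
    have hd : Disjoint I J := disjoint_of_subset_left (subset_insert _ _) h
    have haJ : a ∉ J := fun hc => (disjoint_left.mp h) (mem_insert_self _ _) hc
    have haU : a ∉ I ∪ J := by
      rw [mem_union]
      rintro (h1 | h1)
      · exact ha h1
      · exact haJ h1
    rw [insert_union, Ex_insert haU, ih hd, Ex_insert ha, ih hd]
    congr 2
    refine Ex_congr (fun X _ => Ex_congr (fun Y _ => ?_))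
    rw [insert_union]

theorem Ex_mono {I : Finset ℕ} {f g : Finset ℕ → ℝ} (h : ∀ X ⊆ I, f X ≤ g X) :
    Ex I f ≤ Ex I g := by
  unfold Ex
  refine div_le_div_of_nonneg_right ?_ (by positivity)
  exact sum_le_sum (fun X hX => h X (mem_powerset.mp hX))

theorem Ex_const (I : Finset ℕ) (c : ℝ) : Ex I (fun _ => c) = c := by
  unfold Ex
  rw [sum_const, card_powerset, nsmul_eq_mul]
  push_cast
  field_simp

theorem Ex_nonneg {I : Finset ℕ} {f : Finset ℕ → ℝ} (h : ∀ X ⊆ I, 0 ≤ f X) : 0 ≤ Ex I f := by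
  rw [← Ex_const I 0]
  exact Ex_mono h

theorem Ex_le_const {I : Finset ℕ} {f : Finset ℕ → ℝ} {c : ℝ} (h : ∀ X ⊆ I, f X ≤ c) :
    Ex I f ≤ c := by
  rw [← Ex_const I c]
  exact Ex_mono h

theorem const_le_Ex {I : Finset ℕ} {f : Finset ℕ → ℝ} {c : ℝ} (h : ∀ X ⊆ I, c ≤ f X) :
    c ≤ Ex I f := by
  rw [← Ex_const I c]
  exact Ex_mono h

theorem Ex_add (I : Finset ℕ) (f g : Finset ℕ → ℝ) :
    Ex I (fun X => f X + g X) = Ex I f + Ex I g := by
  unfold Ex
  rw [sum_add_distrib, add_div]

theorem Ex_sub (I : Finset ℕ) (f g : Finset ℕ → ℝ) :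
    Ex I (fun X => f X - g X) = Ex I f - Ex I g := by
  unfold Ex
  rw [sum_sub_distrib, sub_div]

theorem Ex_mul (I : Finset ℕ) (c : ℝ) (f : Finset ℕ → ℝ) :
    Ex I (fun X => c * f X) = c * Ex I f := by
  unfold Ex
  rw [← mul_sum, mul_div_assoc]

theorem Ex_mul_right (I : Finset ℕ) (c : ℝ) (f : Finset ℕ → ℝ) :
    Ex I (fun X => f X * c) = Ex I f * c := by
  rw [mul_comm, ← Ex_mul]
  exact Ex_congr (fun X _ => mul_comm _ _)

theorem Ex_sum {ι : Type*} (s : Finset ι) (I : Finset ℕ) (f : ι → Finset ℕ → ℝ) :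
    Ex I (fun X => ∑ i ∈ s, f i X) = ∑ i ∈ s, Ex I (f i) := by
  unfold Ex
  rw [sum_comm, sum_div]

/-- Averages of functions which only depend on a part of the coordinates. -/
theorem Ex_inter {I J : Finset ℕ} (h : J ⊆ I) (f : Finset ℕ → ℝ) :
    Ex I (fun X => f (X ∩ J)) = Ex J f := by
  have hd : Disjoint J (I \ J) := disjoint_sdiff
  have hu : J ∪ (I \ J) = I := union_sdiff_of_subset h
  rw [← hu, Ex_union hd]
  refine Ex_congr (fun X hX => ?_)
  have : Ex (I \ J) (fun Y => f ((X ∪ Y) ∩ J)) = Ex (I \ J) (fun _ => f X) := by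
    refine Ex_congr (fun Y hY => ?_)
    congr 1
    ext a
    simp only [mem_inter, mem_union]
    constructor
    · rintro ⟨h1 | h1, h2⟩
      · exact h1
      · exact absurd h2 (mem_sdiff.mp (hY h1)).2
    · intro h1
      exact ⟨Or.inl h1, hX h1⟩
  rw [hu] at *
  rw [this, Ex_const]

/-- The average of an indicator as a proportion of subsets. -/
theorem Ex_ind (I : Finset ℕ) (P : Finset ℕ → Prop) [DecidablePred P] :
    Ex I (fun X => ind (P X)) = ((I.powerset.filter P).card : ℝ) / 2 ^ I.card := by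
  unfold Ex ind
  congr 1
  rw [card_filter]
  push_cast
  refine sum_congr rfl (fun X _ => ?_)
  split_ifs <;> rfl

/-- Point masses do not increase when further coordinates are added. -/
theorem Ex_point_mono {I J : Finset ℕ} (h : J ⊆ I) (q : ℕ) (c : ℝ)
    (hc : ∀ r : ZMod q, Ex J (fun X => ind (((F X : ℕ) : ZMod q) = r)) ≤ c) (r : ZMod q) :
    Ex I (fun X => ind (((F X : ℕ) : ZMod q) = r)) ≤ c := by
  have hd : Disjoint (I \ J) J := sdiff_disjoint
  have hu : (I \ J) ∪ J = I := by
    rw [union_comm]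
    exact union_sdiff_of_subset h
  rw [← hu, Ex_union hd]
  refine Ex_le_const (fun X hX => ?_)
  refine le_trans (le_of_eq (Ex_congr (fun Y hY => ?_))) (hc (r - ((F X : ℕ) : ZMod q)))
  refine ind_congr ?_
  rw [F_union (disjoint_of_subset_left hX (disjoint_of_subset_right hY hd))]
  push_cast
  constructor
  · intro h1
    rw [← h1]
    ring
  · intro h1
    rw [h1]
    ring

/-- Lower and upper bounds for point masses survive when further coordinates are added. -/
theorem Ex_point_abs {I J : Finset ℕ} (h : J ⊆ I) (q : ℕ) (m c : ℝ)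
    (hc : ∀ r : ZMod q, |Ex J (fun X => ind (((F X : ℕ) : ZMod q) = r)) - m| ≤ c) (r : ZMod q) :
    |Ex I (fun X => ind (((F X : ℕ) : ZMod q) = r)) - m| ≤ c := by
  have hd : Disjoint (I \ J) J := sdiff_disjoint
  have hu : (I \ J) ∪ J = I := by
    rw [union_comm]
    exact union_sdiff_of_subset h
  have key : ∀ X ⊆ I \ J, |Ex J (fun Y => ind (((F (X ∪ Y) : ℕ) : ZMod q) = r)) - m| ≤ c := by
    intro X hX
    have h1 : Ex J (fun Y => ind (((F (X ∪ Y) : ℕ) : ZMod q) = r)) =
        Ex J (fun Y => ind (((F Y : ℕ) : ZMod q) = r - ((F X : ℕ) : ZMod q))) := by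
      refine Ex_congr (fun Y hY => ind_congr ?_)
      rw [F_union (disjoint_of_subset_left hX (disjoint_of_subset_right hY hd))]
      push_cast
      constructor
      · intro h1
        rw [← h1]
        ring
      · intro h1
        rw [h1]
        ring
    rw [h1]
    exact hc _
  rw [← hu, Ex_union hd, abs_le]
  constructor
  · have := const_le_Ex (I := I \ J)
      (f := fun X => Ex J (fun Y => ind (((F (X ∪ Y) : ℕ) : ZMod q) = r))) (c := m - c)
      (fun X hX => by have := (abs_le.mp (key X hX)).1; linarith)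
    linarith
  · have := Ex_le_const (I := I \ J)
      (f := fun X => Ex J (fun Y => ind (((F (X ∪ Y) : ℕ) : ZMod q) = r))) (c := m + c)
      (fun X hX => by have := (abs_le.mp (key X hX)).2; linarith)
    linarith

end H46.PF
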