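import Pool.Agent.H46.PF.Ex

/-!
# Sums of distinct factorials: congruences for factorials
-/

namespace H46.PF

open Finset

theorem fac_ne {q : ℕ} [Fact q.Prime] {n : ℕ} (h : n < q) : ((n.factorial : ℕ) : ZMod q) ≠ 0 := by
  rw [Ne, ZMod.natCast_eq_zero_iff, (Fact.out : q.Prime).dvd_factorial]
  omega

theorem fac_top {q : ℕ} [Fact q.Prime] {j : ℕ} (h : j < q) :
    (((q - 1 - j).factorial : ℕ) : ZMod q) * ((j.factorial : ℕ) : ZMod q) = (-1) ^ (j + 1) := by
  induction j with
  | zero =>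
    rw [Nat.sub_zero, Nat.factorial_zero, Nat.cast_one, mul_one, ZMod.wilsons_lemma]
    ring
  | succ j ih =>
    have h1 := ih (by omega)
    have h2 : q - 1 - j = (q - 1 - (j + 1)) + 1 := by omega
    rw [h2, Nat.factorial_succ] at h1
    push_cast at h1
    have h3 : (((q - 1 - (j + 1) : ℕ) : ZMod q)) + 1 = -((j : ZMod q) + 1) := by
      have h4 : (((q - 1 - (j + 1)) + 1 + (j + 1) : ℕ) : ZMod q) = 0 := by
        have : (q - 1 - (j + 1)) + 1 + (j + 1) = q := by omega
        rw [this, ZMod.natCast_self]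
      push_cast at h4
      linear_combination h4
    rw [h3] at h1
    rw [Nat.factorial_succ]
    push_cast
    rw [pow_succ]
    linear_combination (-1 : ZMod q) * h1

theorem fac_sq {q : ℕ} (hq : q.Prime) (i : ℕ) :
    (q : ℤ) ^ 2 ∣ ((q + i).factorial : ℤ) + q * (i.factorial : ℤ) := by
  have : Fact q.Prime := ⟨hq⟩
  have hq0 : 0 < q := hq.pos
  -- (q+i)! = q * ((q-1)! * ascending product)
  have h1 : ∀ i : ℕ, ∃ c : ℕ, (q + i).factorial = q * c ∧
      (c : ZMod q) = -((i.factorial : ℕ) : ZMod q) := by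
    intro i
    induction i with
    | zero =>
      refine ⟨(q - 1).factorial, ?_, ?_⟩
      · rw [Nat.add_zero, Nat.mul_factorial_pred hq0.ne']
      · rw [ZMod.wilsons_lemma]
        simp
    | succ i ih =>
      obtain ⟨c, hc1, hc2⟩ := ih
      refine ⟨c * (q + (i + 1)), ?_, ?_⟩
      · have : q + (i + 1) = (q + i) + 1 := by ring
        rw [this, Nat.factorial_succ, hc1]
        ring
      · push_cast
        rw [hc2, Nat.factorial_succ, ZMod.natCast_self]
        push_cast
        ring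
  obtain ⟨c, hc1, hc2⟩ := h1 i
  have h2 : (q : ℤ) ∣ (c : ℤ) + (i.factorial : ℤ) := by
    rw [← ZMod.intCast_zmod_eq_zero_iff_dvd]
    push_cast
    rw [hc2]
    ring
  obtain ⟨e, he⟩ := h2
  refine ⟨e, ?_⟩
  rw [hc1]
  push_cast
  linear_combination (q : ℤ) * he

theorem fac_big {q n : ℕ} (hq : 0 < q) (h : 2 * q ≤ n) : q ^ 2 ∣ n.factorial := by
  have h1 : (2 * q).factorial ∣ n.factorial := Nat.factorial_dvd_factorial h
  refine dvd_trans ?_ h1
  have h2 : q.factorial * q.factorial ∣ (q + q).factorial := Nat.factorial_mul_factorial_dvd_factorial_add q q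
  rw [two_mul]
  refine dvd_trans ?_ h2
  rw [pow_two]
  exact mul_dvd_mul (Nat.dvd_factorial hq le_rfl) (Nat.dvd_factorial hq le_rfl)

/-- Indices `≥ 2 q` do not matter modulo `q ^ 2`. -/
theorem F_big {q : ℕ} (hq : 0 < q) {X : Finset ℕ} (h : ∀ n ∈ X, 2 * q ≤ n) : q ^ 2 ∣ F X := by
  unfold F
  exact dvd_sum (fun n hn => fac_big hq (h n hn))

end H46.PF
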