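import Pool.Agent.H46.PF.Col

/-!
# Sums of distinct factorials: the quadratic character
-/

namespace H46.PF

open Finset

/-- necessary condition modulo the prime `q` for `s = b m ^ 2` -/
def SqC (q b s : ℕ) : Prop := if q ∣ b then q ∣ s else IsSquare ((b * s : ℕ) : ZMod q)

private theorem h13_jac {q : ℕ} [Fact q.Prime] (hq2 : q ≠ 2) {v v' : ZMod q} (h : v ≠ v') :
    ∑ w : ZMod q, quadraticChar (ZMod q) (w + v) * quadraticChar (ZMod q) (w + v') = -1 := by
  have hchar : ringChar (ZMod q) ≠ 2 := by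
    rw [ZMod.ringChar_zmod_n]
    exact hq2
  have hne : quadraticChar (ZMod q) ≠ 1 := quadraticChar_ne_one hchar
  have hinv : (quadraticChar (ZMod q))⁻¹ = quadraticChar (ZMod q) :=
    (quadraticChar_isQuadratic (ZMod q)).inv
  have hJ := jacobiSum_nontrivial_inv hne
  rw [hinv] at hJ
  have hd : v' - v ≠ 0 := sub_ne_zero.mpr (fun h' => h h'.symm)
  have hsq : quadraticChar (ZMod q) (-1) * quadraticChar (ZMod q) (-1) = 1 := by
    rw [← map_mul]
    norm_num
  have hsd : quadraticChar (ZMod q) ((v' - v) * (v' - v)) = 1 := by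
    rw [← pow_two]
    exact quadraticChar_sq_one' hd
  -- substitution w = -v - (v' - v) x
  have e : ∑ w : ZMod q, quadraticChar (ZMod q) (w + v) * quadraticChar (ZMod q) (w + v') =
      ∑ x : ZMod q, quadraticChar (ZMod q) (-1) *
        (quadraticChar (ZMod q) x * quadraticChar (ZMod q) (1 - x)) := by
    symm
    refine Fintype.sum_bijective (fun x : ZMod q => -v - (v' - v) * x) ?_ _ _ ?_
    · constructor
      · intro x y hxy
        have h1 : (v' - v) * x = (v' - v) * y := by
          have : -v - (v' - v) * x = -v - (v' - v) * y := hxy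
          linear_combination (-1 : ZMod q) * this
        exact mul_left_cancel₀ hd h1
      · intro w
        refine ⟨(-v - w) / (v' - v), ?_⟩
        show -v - (v' - v) * ((-v - w) / (v' - v)) = w
        rw [mul_div_cancel₀ _ hd]
        ring
    · intro x
      have h1 : -v - (v' - v) * x + v = (-1) * ((v' - v) * x) := by ring
      have h2 : -v - (v' - v) * x + v' = (v' - v) * (1 - x) := by ring
      show _ = quadraticChar (ZMod q) (-v - (v' - v) * x + v) *
        quadraticChar (ZMod q) (-v - (v' - v) * x + v')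
      rw [h1, h2, map_mul, map_mul, map_mul]
      rw [map_mul] at hsd
      linear_combination (-(quadraticChar (ZMod q) (-1) * quadraticChar (ZMod q) x *
        quadraticChar (ZMod q) (1 - x))) * hsd
  rw [e, ← mul_sum]
  unfold jacobiSum at hJ
  rw [hJ]
  linear_combination (-1 : ℤ) * hsq

/-- the quadratic character as a real function -/
private noncomputable def h13_chi (q : ℕ) [Fact q.Prime] (z : ZMod q) : ℝ :=
  ((quadraticChar (ZMod q) z : ℤ) : ℝ)

private theorem h13_chi_abs {q : ℕ} [Fact q.Prime] (z : ZMod q) : |h13_chi q z| ≤ 1 := by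
  unfold h13_chi
  rcases (quadraticChar_isQuadratic (ZMod q)) z with h | h | h <;> rw [h] <;> norm_num

private theorem h13_chi_mul {q : ℕ} [Fact q.Prime] (y z : ZMod q) :
    h13_chi q (y * z) = h13_chi q y * h13_chi q z := by
  unfold h13_chi
  rw [map_mul]
  push_cast
  ring

private theorem h13_pair {q : ℕ} [Fact q.Prime] (hq2 : q ≠ 2) (v v' : ZMod q) :
    ∑ w : ZMod q, h13_chi q (w + v) * h13_chi q (w + v') ≤ if v = v' then (q : ℝ) else 0 := by
  split_ifs with h
  · have h1 : ∑ w : ZMod q, h13_chi q (w + v) * h13_chi q (w + v') ≤ ∑ _w : ZMod q, (1 : ℝ) := by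
      refine sum_le_sum (fun w _ => ?_)
      refine le_trans (le_abs_self _) ?_
      rw [abs_mul]
      have a1 := h13_chi_abs (q := q) (w + v)
      have a2 := h13_chi_abs (q := q) (w + v')
      nlinarith [abs_nonneg (h13_chi q (w + v)), abs_nonneg (h13_chi q (w + v'))]
    refine le_trans h1 ?_
    rw [sum_const, nsmul_eq_mul, mul_one, card_univ, ZMod.card]
  · have h1 := h13_jac hq2 h
    have h2 : ∑ w : ZMod q, h13_chi q (w + v) * h13_chi q (w + v') = -1 := by
      unfold h13_chi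
      exact_mod_cast h1
    rw [h2]
    norm_num

private theorem h13_G {q : ℕ} [Fact q.Prime] (hq2 : q ≠ 2) (m : ZMod q → ℝ) (hm : ∀ v, 0 ≤ m v) :
    ∑ w : ZMod q, (∑ v : ZMod q, m v * h13_chi q (w + v)) ^ 2 ≤ q * ∑ v : ZMod q, m v ^ 2 := by
  have e : ∑ w : ZMod q, (∑ v : ZMod q, m v * h13_chi q (w + v)) ^ 2 =
      ∑ v : ZMod q, ∑ v' : ZMod q, m v * m v' *
        ∑ w : ZMod q, h13_chi q (w + v) * h13_chi q (w + v') := by
    have e1 : ∀ w : ZMod q, (∑ v : ZMod q, m v * h13_chi q (w + v)) ^ 2 =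
        ∑ v : ZMod q, ∑ v' : ZMod q, m v * m v' * (h13_chi q (w + v) * h13_chi q (w + v')) := by
      intro w
      rw [pow_two, sum_mul_sum]
      refine sum_congr rfl (fun v _ => sum_congr rfl (fun v' _ => ?_))
      ring
    rw [sum_congr rfl (fun w _ => e1 w), sum_comm]
    refine sum_congr rfl (fun v _ => ?_)
    rw [sum_comm]
    refine sum_congr rfl (fun v' _ => ?_)
    rw [mul_sum]
  rw [e]
  calc ∑ v : ZMod q, ∑ v' : ZMod q, m v * m v' *
        ∑ w : ZMod q, h13_chi q (w + v) * h13_chi q (w + v')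
      ≤ ∑ v : ZMod q, ∑ v' : ZMod q, m v * m v' * (if v = v' then (q : ℝ) else 0) := by
        refine sum_le_sum (fun v _ => sum_le_sum (fun v' _ => ?_))
        exact mul_le_mul_of_nonneg_left (h13_pair hq2 v v') (mul_nonneg (hm v) (hm v'))
    _ = q * ∑ v : ZMod q, m v ^ 2 := by
        rw [mul_sum]
        refine sum_congr rfl (fun v _ => ?_)
        rw [sum_eq_single v]
        · rw [if_pos rfl]
          ring
        · intro v' _ hv'
          rw [if_neg (fun h => hv' h.symm), mul_zero]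
        · intro h
          exact absurd (mem_univ v) h

/-- point masses -/
private noncomputable def h13_m (q : ℕ) (T : Finset ℕ) (u : ZMod q) : ℝ :=
  Ex T (fun X => ind (((F X : ℕ) : ZMod q) = u))

private theorem h13_m_nonneg (q : ℕ) (T : Finset ℕ) (u : ZMod q) : 0 ≤ h13_m q T u :=
  Ex_nonneg (fun _ _ => ind_nonneg _)

private theorem h13_law {q : ℕ} [Fact q.Prime] (T : Finset ℕ) (g : ZMod q → ℝ) :
    Ex T (fun X => g ((F X : ℕ) : ZMod q)) = ∑ u : ZMod q, h13_m q T u * g u := by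
  have e : ∀ X ⊆ T, g ((F X : ℕ) : ZMod q) =
      ∑ u : ZMod q, ind (((F X : ℕ) : ZMod q) = u) * g u := by
    intro X _
    rw [sum_eq_single ((F X : ℕ) : ZMod q)]
    · rw [ind_true rfl, one_mul]
    · intro u _ hu
      rw [ind_false (fun h => hu h.symm), zero_mul]
    · intro h
      exact absurd (mem_univ _) h
  rw [Ex_congr e, Ex_sum]
  refine sum_congr rfl (fun u _ => ?_)
  rw [Ex_mul_right]
  rfl

private theorem h13_col {q : ℕ} [Fact q.Prime] (J : Finset ℕ) :
    Col q J = ∑ u : ZMod q, h13_m q (top q J) u ^ 2 := by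
  unfold Col
  have e : Ex (top q J) (fun X => Ex (top q J) (fun Y =>
      ind (((F X : ℕ) : ZMod q) = ((F Y : ℕ) : ZMod q)))) =
      Ex (top q J) (fun X => h13_m q (top q J) ((F X : ℕ) : ZMod q)) := by
    refine Ex_congr (fun X _ => Ex_congr (fun Y _ => ind_congr eq_comm))
  rw [e, h13_law (top q J) (fun u => h13_m q (top q J) u)]
  refine sum_congr rfl (fun u _ => ?_)
  ring

/-- point masses of the sum of two independent parts -/
private theorem h13_zero {q : ℕ} [Fact q.Prime] {J1 J2 : Finset ℕ} (κ : ℝ)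
    (hc1 : Col q J1 ≤ κ) (hc2 : Col q J2 ≤ κ) (r : ZMod q) :
    ∑ u : ZMod q, h13_m q (top q J1) u * h13_m q (top q J2) (r - u) ≤ κ := by
  rw [h13_col] at hc1 hc2
  have e : ∑ u : ZMod q, h13_m q (top q J2) (r - u) ^ 2 =
      ∑ u : ZMod q, h13_m q (top q J2) u ^ 2 :=
    Fintype.sum_bijective (fun u : ZMod q => r - u)
      ⟨fun a b h => by simpa using h, fun b => ⟨r - b, by ring⟩⟩ _ _ (fun _ => rfl)
  calc ∑ u : ZMod q, h13_m q (top q J1) u * h13_m q (top q J2) (r - u)
      ≤ ∑ u : ZMod q, (h13_m q (top q J1) u ^ 2 + h13_m q (top q J2) (r - u) ^ 2) / 2 := by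
        refine sum_le_sum (fun u _ => ?_)
        nlinarith [sq_nonneg (h13_m q (top q J1) u - h13_m q (top q J2) (r - u))]
    _ = ((∑ u : ZMod q, h13_m q (top q J1) u ^ 2) +
          ∑ u : ZMod q, h13_m q (top q J2) u ^ 2) / 2 := by
        rw [← sum_div, sum_add_distrib, e]
    _ ≤ κ := by linarith

private theorem h13_bil {q : ℕ} [Fact q.Prime] (hq2 : q ≠ 2) {J1 J2 : Finset ℕ} (κ : ℝ)
    (hc1 : Col q J1 ≤ κ) (hc2 : Col q J2 ≤ κ) (c : ZMod q) :
    |∑ u : ZMod q, h13_m q (top q J1) u *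
      ∑ v : ZMod q, h13_m q (top q J2) v * h13_chi q (c + u + v)| ≤ κ * Real.sqrt q := by
  rw [h13_col] at hc1 hc2
  have hκ : 0 ≤ κ := le_trans (sum_nonneg (fun _ _ => sq_nonneg _)) hc1
  set S := ∑ u : ZMod q, h13_m q (top q J1) u *
      ∑ v : ZMod q, h13_m q (top q J2) v * h13_chi q (c + u + v) with hS
  have hCS : S ^ 2 ≤ (∑ u : ZMod q, h13_m q (top q J1) u ^ 2) *
      ∑ u : ZMod q, (∑ v : ZMod q, h13_m q (top q J2) v * h13_chi q (c + u + v)) ^ 2 :=
    sum_mul_sq_le_sq_mul_sq _ _ _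
  have hsh : ∑ u : ZMod q, (∑ v : ZMod q, h13_m q (top q J2) v * h13_chi q (c + u + v)) ^ 2 =
      ∑ w : ZMod q, (∑ v : ZMod q, h13_m q (top q J2) v * h13_chi q (w + v)) ^ 2 :=
    Fintype.sum_bijective (fun u : ZMod q => c + u)
      ⟨fun a b h => by simpa using h, fun b => ⟨b - c, by ring⟩⟩ _ _ (fun _ => rfl)
  have hG := h13_G hq2 (h13_m q (top q J2)) (h13_m_nonneg q (top q J2))
  rw [hsh] at hCS
  have hq0 : (0 : ℝ) ≤ q := Nat.cast_nonneg q
  have h1 : S ^ 2 ≤ κ ^ 2 * q := by
    calc S ^ 2 ≤ (∑ u : ZMod q, h13_m q (top q J1) u ^ 2) *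
          (q * ∑ v : ZMod q, h13_m q (top q J2) v ^ 2) :=
          le_trans hCS (mul_le_mul_of_nonneg_left hG (sum_nonneg (fun _ _ => sq_nonneg _)))
      _ ≤ κ * (q * κ) := by
          refine mul_le_mul hc1 (mul_le_mul_of_nonneg_left hc2 hq0) ?_ hκ
          exact mul_nonneg hq0 (sum_nonneg (fun _ _ => sq_nonneg _))
      _ = κ ^ 2 * q := by ring
  refine abs_le_of_sq_le_sq ?_ (mul_nonneg hκ (Real.sqrt_nonneg _))
  rw [mul_pow, Real.sq_sqrt hq0]
  exact h1

private theorem h13_sq_le {q : ℕ} [Fact q.Prime] (z : ZMod q) :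
    ind (IsSquare z) ≤ (1 + h13_chi q z + ind (z = 0)) / 2 := by
  by_cases hz : z = 0
  · rw [ind_true hz, hz]
    have h1 : h13_chi q 0 = 0 := by
      unfold h13_chi
      rw [quadraticChar_zero]
      norm_num
    rw [h1]
    have := ind_le_one (IsSquare (0 : ZMod q))
    linarith
  · rw [ind_false hz]
    by_cases hs : IsSquare z
    · have h1 : h13_chi q z = 1 := by
        unfold h13_chi
        rw [(quadraticChar_one_iff_isSquare hz).mpr hs]
        norm_num
      rw [ind_true hs, h1]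
      norm_num
    · rw [ind_false hs]
      have := (abs_le.mp (h13_chi_abs (q := q) z)).1
      linarith

theorem leg {q : ℕ} [Fact q.Prime] (hq2 : q ≠ 2) {D : ℕ} (hD : D < q) {J1 J2 : Finset ℕ}
    (h1 : J1 ⊆ Icc 2 D) (h2 : J2 ⊆ Icc 2 D) (hd : Disjoint J1 J2) (κ : ℝ)
    (hc1 : Col q J1 ≤ κ) (hc2 : Col q J2 ≤ κ) (I : Finset ℕ) (hI : top q (J1 ∪ J2) ⊆ I)
    (b t : ℕ) : Ex I (fun X => ind (SqC q b (t + F X))) ≤ 1 / 2 + κ * Real.sqrt q := by
  have hκ : 0 ≤ κ := by
    refine le_trans ?_ hc1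
    rw [h13_col]
    exact sum_nonneg (fun _ _ => sq_nonneg _)
  have hq1 : (1 : ℝ) ≤ Real.sqrt q := by
    rw [Real.one_le_sqrt]
    exact_mod_cast (Fact.out : q.Prime).one_le
  -- the two parts
  have hT : top q (J1 ∪ J2) = top q J1 ∪ top q J2 := image_union _ _
  have hTd : Disjoint (top q J1) (top q J2) := by
    rw [disjoint_left]
    intro n hn1 hn2
    unfold top at hn1 hn2
    rw [mem_image] at hn1 hn2
    obtain ⟨a, ha, rfl⟩ := hn1
    obtain ⟨b, hb, hab⟩ := hn2
    have ha' := mem_Icc.mp (h1 ha)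
    have hb' := mem_Icc.mp (h2 hb)
    have : a = b := by omega
    subst this
    exact (disjoint_left.mp hd) ha hb
  -- main claim on the top bits
  have main : ∀ t : ℕ, Ex (top q (J1 ∪ J2)) (fun X => ind (SqC q b (t + F X))) ≤
      1 / 2 + κ * Real.sqrt q := by
    intro t
    have hzero : Ex (top q J1) (fun X => Ex (top q J2) (fun Y =>
        ind ((((t : ℕ) : ZMod q) + ((F X : ℕ) : ZMod q) + ((F Y : ℕ) : ZMod q)) = 0))) ≤ κ := by
      have e1 : Ex (top q J1) (fun X => Ex (top q J2) (fun Y =>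
          ind ((((t : ℕ) : ZMod q) + ((F X : ℕ) : ZMod q) + ((F Y : ℕ) : ZMod q)) = 0))) =
          Ex (top q J1) (fun X => h13_m q (top q J2)
            (-((t : ℕ) : ZMod q) - ((F X : ℕ) : ZMod q))) := by
        refine Ex_congr (fun X _ => Ex_congr (fun Y _ => ind_congr ?_))
        constructor
        · intro h
          linear_combination h
        · intro h
          linear_combination h
      rw [e1, h13_law (top q J1) (fun u => h13_m q (top q J2) (-((t : ℕ) : ZMod q) - u))]
      exact h13_zero κ hc1 hc2 _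
    rw [hT, Ex_union hTd]
    have e0 : ∀ X ⊆ top q J1, ∀ Y ⊆ top q J2, F (X ∪ Y) = F X + F Y := fun X hX Y hY =>
      F_union (disjoint_of_subset_left hX (disjoint_of_subset_right hY hTd))
    by_cases hb : q ∣ b
    · refine le_trans (le_trans (le_of_eq ?_) hzero) ?_
      · refine Ex_congr (fun X hX => Ex_congr (fun Y hY => ind_congr ?_))
        unfold SqC
        rw [if_pos hb, e0 X hX Y hY, ← ZMod.natCast_eq_zero_iff]
        push_cast
        rw [add_assoc]
      · nlinarith
    · have hb0 : ((b : ℕ) : ZMod q) ≠ 0 := by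
        rw [Ne, ZMod.natCast_eq_zero_iff]
        exact hb
      have hstep : Ex (top q J1) (fun X => Ex (top q J2) (fun Y =>
          ind (SqC q b (t + F (X ∪ Y))))) ≤
          Ex (top q J1) (fun X => Ex (top q J2) (fun Y =>
            1 / 2 + h13_chi q ((b : ℕ) : ZMod q) / 2 *
              h13_chi q (((t : ℕ) : ZMod q) + ((F X : ℕ) : ZMod q) + ((F Y : ℕ) : ZMod q)) +
            1 / 2 * ind ((((t : ℕ) : ZMod q) + ((F X : ℕ) : ZMod q) +
              ((F Y : ℕ) : ZMod q)) = 0))) := by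
        refine Ex_mono (fun X hX => Ex_mono (fun Y hY => ?_))
        unfold SqC
        rw [if_neg hb, e0 X hX Y hY]
        have e1 : ((b * (t + (F X + F Y)) : ℕ) : ZMod q) = ((b : ℕ) : ZMod q) *
            (((t : ℕ) : ZMod q) + ((F X : ℕ) : ZMod q) + ((F Y : ℕ) : ZMod q)) := by
          push_cast
          ring
        rw [e1]
        refine le_trans (h13_sq_le _) ?_
        rw [h13_chi_mul]
        have e2 : ind (((b : ℕ) : ZMod q) * (((t : ℕ) : ZMod q) + ((F X : ℕ) : ZMod q) +
            ((F Y : ℕ) : ZMod q)) = 0) = ind ((((t : ℕ) : ZMod q) + ((F X : ℕ) : ZMod q) +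
              ((F Y : ℕ) : ZMod q)) = 0) := by
          refine ind_congr ?_
          rw [mul_eq_zero]
          exact ⟨fun h => h.resolve_left hb0, Or.inr⟩
        rw [e2]
        linarith
      refine le_trans hstep ?_
      have e3 : Ex (top q J1) (fun X => Ex (top q J2) (fun Y =>
            1 / 2 + h13_chi q ((b : ℕ) : ZMod q) / 2 *
              h13_chi q (((t : ℕ) : ZMod q) + ((F X : ℕ) : ZMod q) + ((F Y : ℕ) : ZMod q)) +
            1 / 2 * ind ((((t : ℕ) : ZMod q) + ((F X : ℕ) : ZMod q) +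
              ((F Y : ℕ) : ZMod q)) = 0))) =
          1 / 2 + h13_chi q ((b : ℕ) : ZMod q) / 2 *
            Ex (top q J1) (fun X => Ex (top q J2) (fun Y =>
              h13_chi q (((t : ℕ) : ZMod q) + ((F X : ℕ) : ZMod q) + ((F Y : ℕ) : ZMod q)))) +
          1 / 2 * Ex (top q J1) (fun X => Ex (top q J2) (fun Y =>
            ind ((((t : ℕ) : ZMod q) + ((F X : ℕ) : ZMod q) + ((F Y : ℕ) : ZMod q)) = 0))) := by
        have e4 : ∀ X ⊆ top q J1, Ex (top q J2) (fun Y =>
            1 / 2 + h13_chi q ((b : ℕ) : ZMod q) / 2 *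
              h13_chi q (((t : ℕ) : ZMod q) + ((F X : ℕ) : ZMod q) + ((F Y : ℕ) : ZMod q)) +
            1 / 2 * ind ((((t : ℕ) : ZMod q) + ((F X : ℕ) : ZMod q) +
              ((F Y : ℕ) : ZMod q)) = 0)) =
            1 / 2 + h13_chi q ((b : ℕ) : ZMod q) / 2 * Ex (top q J2) (fun Y =>
              h13_chi q (((t : ℕ) : ZMod q) + ((F X : ℕ) : ZMod q) + ((F Y : ℕ) : ZMod q))) +
            1 / 2 * Ex (top q J2) (fun Y =>
            ind ((((t : ℕ) : ZMod q) + ((F X : ℕ) : ZMod q) + ((F Y : ℕ) : ZMod q)) = 0)) := by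
          intro X _
          rw [Ex_add, Ex_add, Ex_const, Ex_mul, Ex_mul]
        rw [Ex_congr e4, Ex_add, Ex_add, Ex_const, Ex_mul, Ex_mul]
      rw [e3]
      have e5 : Ex (top q J1) (fun X => Ex (top q J2) (fun Y =>
          h13_chi q (((t : ℕ) : ZMod q) + ((F X : ℕ) : ZMod q) + ((F Y : ℕ) : ZMod q)))) =
          ∑ u : ZMod q, h13_m q (top q J1) u *
            ∑ v : ZMod q, h13_m q (top q J2) v * h13_chi q (((t : ℕ) : ZMod q) + u + v) := by
        have e6 : ∀ X ⊆ top q J1, Ex (top q J2) (fun Y =>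
            h13_chi q (((t : ℕ) : ZMod q) + ((F X : ℕ) : ZMod q) + ((F Y : ℕ) : ZMod q))) =
            ∑ v : ZMod q, h13_m q (top q J2) v *
              h13_chi q (((t : ℕ) : ZMod q) + ((F X : ℕ) : ZMod q) + v) := fun X _ =>
          h13_law (top q J2) (fun v =>
            h13_chi q (((t : ℕ) : ZMod q) + ((F X : ℕ) : ZMod q) + v))
        rw [Ex_congr e6]
        exact h13_law (top q J1) (fun u => ∑ v : ZMod q, h13_m q (top q J2) v *
              h13_chi q (((t : ℕ) : ZMod q) + u + v))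
      rw [e5]
      have hbil := h13_bil hq2 κ hc1 hc2 ((t : ℕ) : ZMod q)
      set S := ∑ u : ZMod q, h13_m q (top q J1) u *
            ∑ v : ZMod q, h13_m q (top q J2) v * h13_chi q (((t : ℕ) : ZMod q) + u + v) with hS
      have hchib := h13_chi_abs (q := q) ((b : ℕ) : ZMod q)
      have h7 : h13_chi q ((b : ℕ) : ZMod q) / 2 * S ≤ κ * Real.sqrt q / 2 := by
        have h8 : h13_chi q ((b : ℕ) : ZMod q) * S ≤ κ * Real.sqrt q := by
          refine le_trans (le_abs_self _) ?_
          rw [abs_mul]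
          calc |h13_chi q ((b : ℕ) : ZMod q)| * |S| ≤ 1 * |S| :=
                mul_le_mul_of_nonneg_right hchib (abs_nonneg _)
            _ ≤ κ * Real.sqrt q := by rw [one_mul]; exact hbil
        linarith
      nlinarith
  -- restrict to the top bits
  have hID : Disjoint (I \ top q (J1 ∪ J2)) (top q (J1 ∪ J2)) := sdiff_disjoint
  have hIu : (I \ top q (J1 ∪ J2)) ∪ top q (J1 ∪ J2) = I := by
    rw [union_comm]
    exact union_sdiff_of_subset hI
  rw [← hIu, Ex_union hID]
  refine Ex_le_const (fun X hX => ?_)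
  refine le_trans (le_of_eq (Ex_congr (fun Y hY => ?_))) (main (t + F X))
  rw [F_union (disjoint_of_subset_left hX (disjoint_of_subset_right hY hID)), ← add_assoc]

end H46.PF
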