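import Pool.Agent.H46.PF.Fac

/-!
# Sums of distinct factorials: independence along a separated set of primes
-/

namespace H46.PF

open Finset

theorem F_dvd {p : ℕ} (hp : 0 < p) {X : Finset ℕ} (h : ∀ n ∈ X, p ≤ n) : p ∣ F X := by
  unfold F
  exact dvd_sum (fun n hn => Nat.dvd_factorial hp (h n hn))

theorem seq (Q : Finset ℕ) (g a z : ℕ) (ρ : ℝ) (hρ0 : 0 ≤ ρ)
    (hQ : ∀ q ∈ Q, q.Prime ∧ a + g ≤ q ∧ q ≤ z)
    (hsep : ∀ p ∈ Q, ∀ q ∈ Q, p < q → p + g ≤ q) (P : ℕ → ℕ → Prop)
    (hP : ∀ q ∈ Q, ∀ s s' : ℕ, s ≡ s' [MOD q] → (P q s ↔ P q s'))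
    (hρ : ∀ q ∈ Q, ∀ t : ℕ, Ex (Ico (q - g) q) (fun X => ind (P q (t + F X))) ≤ ρ) (t : ℕ) :
    Ex (Ico a z) (fun X => ind (∀ q ∈ Q, P q (t + F X))) ≤ ρ ^ Q.card := by
  induction Q using Finset.induction_on_max generalizing z with
  | empty =>
    rw [card_empty, pow_zero]
    exact Ex_le_const (fun X _ => ind_le_one _)
  | insert q s hmax ih =>
    have hqs : q ∉ s := fun h => lt_irrefl q (hmax q h)
    rw [card_insert_of_notMem hqs, pow_succ]
    obtain ⟨hqp, hag, hqz⟩ := hQ q (mem_insert_self _ _)
    have ih' := ih (q - g) (fun p hp => ⟨(hQ p (mem_insert_of_mem hp)).1,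
        (hQ p (mem_insert_of_mem hp)).2.1, by
          have := hsep p (mem_insert_of_mem hp) q (mem_insert_self _ _) (hmax p hp)
          omega⟩)
      (fun p hp p' hp' hlt => hsep p (mem_insert_of_mem hp) p' (mem_insert_of_mem hp') hlt)
      (fun p hp => hP p (mem_insert_of_mem hp)) (fun p hp => hρ p (mem_insert_of_mem hp))
    have hsplit : Ico a z = Ico a (q - g) ∪ (Ico (q - g) q ∪ Ico q z) := by
      rw [Ico_union_Ico_eq_Ico (by omega) hqz, Ico_union_Ico_eq_Ico (by omega) (by omega)]
    have hd1 : Disjoint (Ico a (q - g)) (Ico (q - g) q ∪ Ico q z) := by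
      rw [disjoint_left]
      intro x hx hx'
      rw [mem_union, mem_Ico, mem_Ico] at hx'
      rw [mem_Ico] at hx
      omega
    have hd2 : Disjoint (Ico (q - g) q) (Ico q z) := by
      rw [disjoint_left]
      intro x hx hx'
      rw [mem_Ico] at hx hx'
      omega
    rw [hsplit, Ex_union hd1]
    have hbound : ∀ X1 ⊆ Ico a (q - g),
        Ex (Ico (q - g) q ∪ Ico q z) (fun Y => ind (∀ p ∈ insert q s, P p (t + F (X1 ∪ Y)))) ≤
          ind (∀ p ∈ s, P p (t + F X1)) * ρ := by
      intro X1 hX1
      rw [Ex_union hd2]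
      have h1 : ∀ X2 ⊆ Ico (q - g) q, Ex (Ico q z)
          (fun X3 => ind (∀ p ∈ insert q s, P p (t + F (X1 ∪ (X2 ∪ X3))))) ≤
          ind (∀ p ∈ s, P p (t + F X1)) * ind (P q ((t + F X1) + F X2)) := by
        intro X2 hX2
        refine Ex_le_const (fun X3 hX3 => ?_)
        have hF : F (X1 ∪ (X2 ∪ X3)) = F X1 + (F X2 + F X3) := by
          rw [F_union, F_union]
          · exact disjoint_of_subset_left hX2 (disjoint_of_subset_right hX3 hd2)
          · refine disjoint_of_subset_left hX1 (disjoint_of_subset_right ?_ hd1)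
            exact union_subset_union hX2 hX3
        by_cases hall : ∀ p ∈ insert q s, P p (t + F (X1 ∪ (X2 ∪ X3)))
        · rw [ind_true hall]
          have hs : ∀ p ∈ s, P p (t + F X1) := by
            intro p hp
            have hpq : p + g ≤ q :=
              hsep p (mem_insert_of_mem hp) q (mem_insert_self _ _) (hmax p hp)
            have hpp : p.Prime := (hQ p (mem_insert_of_mem hp)).1
            have h2 : p ∣ F X2 := F_dvd hpp.pos (fun n hn => by
              have := hX2 hn
              rw [mem_Ico] at this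
              omega)
            have h3 : p ∣ F X3 := F_dvd hpp.pos (fun n hn => by
              have := hX3 hn
              rw [mem_Ico] at this
              omega)
            refine (hP p (mem_insert_of_mem hp) _ _ ?_).mp (hall p (mem_insert_of_mem hp))
            rw [hF]
            have h4 : F X2 + F X3 ≡ 0 [MOD p] :=
              (Nat.modEq_zero_iff_dvd).mpr (dvd_add h2 h3)
            have h5 := Nat.ModEq.add_left (t + F X1) h4
            rw [add_zero] at h5
            rw [← add_assoc]
            exact h5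
          have hq : P q ((t + F X1) + F X2) := by
            have h3 : q ∣ F X3 := F_dvd hqp.pos (fun n hn => by
              have := hX3 hn
              rw [mem_Ico] at this
              omega)
            refine (hP q (mem_insert_self _ _) _ _ ?_).mp (hall q (mem_insert_self _ _))
            rw [hF]
            have h4 : F X3 ≡ 0 [MOD q] := (Nat.modEq_zero_iff_dvd).mpr h3
            have h5 := Nat.ModEq.add_left ((t + F X1) + F X2) h4
            rw [add_zero] at h5
            have h6 : t + (F X1 + (F X2 + F X3)) = t + F X1 + F X2 + F X3 := by ring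
            rw [h6]
            exact h5
          rw [ind_true hs, ind_true hq, one_mul]
        · rw [ind_false hall]
          exact mul_nonneg (ind_nonneg _) (ind_nonneg _)
      refine (Ex_mono h1).trans ?_
      rw [Ex_mul]
      exact mul_le_mul_of_nonneg_left (hρ q (mem_insert_self _ _) (t + F X1)) (ind_nonneg _)
    refine (Ex_mono hbound).trans ?_
    rw [Ex_mul_right]
    exact mul_le_mul_of_nonneg_right ih' hρ0

end H46.PF
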