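import Pool.Agent.H46.PF.Par
import Pool.Agent.H46.PF.Seq
import Pool.Agent.H46.PF.Leg

/-!
# Sums of distinct factorials: squares times small numbers are rare
-/

namespace H46.PF

open Finset Filter

theorem SqC_of_eq {q b m s : ℕ} (h : s = b * m ^ 2) : SqC q b s := by
  unfold SqC
  split_ifs with hb
  · rw [h]
    exact dvd_mul_of_dvd_left hb _
  · refine ⟨((b * m : ℕ) : ZMod q), ?_⟩
    rw [h]
    push_cast
    ring

theorem SqC_congr {q b s s' : ℕ} (h : s ≡ s' [MOD q]) : SqC q b s ↔ SqC q b s' := by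
  unfold SqC
  split_ifs with hb
  · exact h.dvd_iff (dvd_refl q)
  · have h1 : ((b * s : ℕ) : ZMod q) = ((b * s' : ℕ) : ZMod q) :=
      (ZMod.natCast_eq_natCast_iff _ _ _).mpr (Nat.ModEq.mul_left b h)
    rw [h1]

/-- One `k`: the average over the subsets of `{1, …, N}`. -/
theorem one_b (k N b : ℕ) (hk : 3 ≤ k) (hN : 6 * 2 ^ (10 * k) ≤ N) (Q : Finset ℕ)
    (hQ : ∀ q ∈ Q, q.Prime ∧ 2 * 2 ^ (10 * k) < q ∧ q ≤ 6 * 2 ^ (10 * k) ∧
      Col q (Ico 2 (20 * k + 2)) ≤ 1 / 2 ^ (9 * k) ∧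
      Col q (Ico (20 * k + 2) (40 * k + 2)) ≤ 1 / 2 ^ (9 * k))
    (hsep : ∀ p ∈ Q, ∀ q ∈ Q, p < q → p + (40 * k + 2) ≤ q)
    (hkx : 40 * k + 3 ≤ 2 * 2 ^ (10 * k)) :
    Ex (Ico 1 (N + 1)) (fun X => ind (∀ q ∈ Q, SqC q b (F X))) ≤
      (2 : ℝ) ^ (-((Q.card : ℝ) / 2)) := by
  have h1 := seq Q (40 * k + 2) 1 (N + 1) (0.51 : ℝ) (by norm_num)
    (fun q hq => ⟨(hQ q hq).1, by have := (hQ q hq).2.1; omega,
      by have := (hQ q hq).2.2.1; omega⟩) hsep (fun q s => SqC q b s)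
    (fun q _ s s' h => SqC_congr h) ?_ 0
  · simp only [zero_add] at h1
    refine h1.trans ?_
    have h2 : (0.51 : ℝ) ≤ (2 : ℝ) ^ (-(1 / 2 : ℝ)) := by
      rw [Real.rpow_neg (by norm_num), ← Real.sqrt_eq_rpow]
      have h3 : Real.sqrt 2 ≤ 1.5 := by
        rw [Real.sqrt_le_left (by norm_num)]
        norm_num
      have h4 : 0 < Real.sqrt 2 := Real.sqrt_pos.mpr (by norm_num)
      rw [le_inv_comm₀ (by norm_num) h4]
      exact h3.trans (by norm_num)
    calc (0.51 : ℝ) ^ Q.card ≤ ((2 : ℝ) ^ (-(1 / 2 : ℝ))) ^ Q.card :=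
          pow_le_pow_left₀ (by norm_num) h2 _
      _ = (2 : ℝ) ^ (-((Q.card : ℝ) / 2)) := by
          rw [← Real.rpow_natCast, ← Real.rpow_mul (by norm_num)]
          congr 1
          ring
  · intro q hq t
    obtain ⟨hqp, hq1, hq2, hc1, hc2⟩ := hQ q hq
    have : Fact q.Prime := ⟨hqp⟩
    have hJ1 : Ico 2 (20 * k + 2) ⊆ Icc 2 (40 * k + 1) := by
      intro j hj
      rw [mem_Ico] at hj
      rw [mem_Icc]
      omega
    have hJ2 : Ico (20 * k + 2) (40 * k + 2) ⊆ Icc 2 (40 * k + 1) := by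
      intro j hj
      rw [mem_Ico] at hj
      rw [mem_Icc]
      omega
    have hd : Disjoint (Ico 2 (20 * k + 2)) (Ico (20 * k + 2) (40 * k + 2)) := by
      rw [disjoint_left]
      intro j h h'
      rw [mem_Ico] at h h'
      omega
    have hI : top q (Ico 2 (20 * k + 2) ∪ Ico (20 * k + 2) (40 * k + 2)) ⊆
        Ico (q - (40 * k + 2)) q := by
      intro n hn
      unfold top at hn
      rw [mem_image] at hn
      obtain ⟨j, hj, rfl⟩ := hn
      rw [mem_union, mem_Ico, mem_Ico] at hj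
      rw [mem_Ico]
      omega
    have hq3 : q ≠ 2 := by
      have : 1 ≤ 2 ^ (10 * k) := Nat.one_le_two_pow
      omega
    have h2 := leg hq3 (D := 40 * k + 1) (by omega) hJ1 hJ2 hd _ hc1 hc2 _ hI b t
    refine h2.trans ?_
    have h3 : Real.sqrt q ≤ 3 * 2 ^ (5 * k) := by
      rw [Real.sqrt_le_left (by positivity)]
      have h4 : (q : ℝ) ≤ 6 * 2 ^ (10 * k) := by exact_mod_cast hq2
      rw [mul_pow, ← pow_mul]
      have h5 : 5 * k * 2 = 10 * k := by ring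
      rw [h5]
      have : (0 : ℝ) < 2 ^ (10 * k) := by positivity
      linarith
    have h4 : (1 : ℝ) / 2 ^ (9 * k) * Real.sqrt q ≤ 0.01 := by
      have h5 : (1 : ℝ) / 2 ^ (9 * k) * Real.sqrt q ≤ 1 / 2 ^ (9 * k) * (3 * 2 ^ (5 * k)) :=
        mul_le_mul_of_nonneg_left h3 (by positivity)
      refine h5.trans ?_
      have h6 : (2 : ℝ) ^ (9 * k) = 2 ^ (4 * k) * 2 ^ (5 * k) := by
        rw [← pow_add]
        congr 1
        ring
      rw [h6]
      have h7 : (2 : ℝ) ^ 12 ≤ 2 ^ (4 * k) := pow_le_pow_right₀ (by norm_num) (by omega)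
      have h8 : (1 : ℝ) / (2 ^ (4 * k) * 2 ^ (5 * k)) * (3 * 2 ^ (5 * k)) = 3 / 2 ^ (4 * k) := by
        field_simp
      rw [h8, div_le_iff₀ (by positivity)]
      norm_num at h7
      linarith
    linarith

open Classical in
theorem squares : ∃ c : ℝ, 0 < c ∧ ∀ᶠ N : ℕ in Filter.atTop,
    (((Icc 1 N).powerset.filter (fun S => ∃ b m : ℕ,
      (b : ℝ) ≤ 2 ^ (c * N / (Real.log N) ^ 2) ∧ ∑ n ∈ S, n.factorial = b * m ^ 2)).card : ℝ) ≤
      2 ^ ((N : ℝ) - c * N / (Real.log N) ^ 2) := by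
  refine ⟨1 / 10 ^ 6, by norm_num, ?_⟩
  -- choice of `k`
  have htend : Tendsto (fun N : ℕ => Nat.log 2 (N / 6) / 10) atTop atTop := by
    rw [tendsto_atTop]
    intro K
    filter_upwards [eventually_ge_atTop (6 * 2 ^ (10 * K))] with N hN
    have h1 : 2 ^ (10 * K) ≤ N / 6 := by
      rw [Nat.le_div_iff_mul_le (by norm_num)]
      omega
    have h2 : 10 * K ≤ Nat.log 2 (N / 6) :=
      Nat.le_log_of_pow_le (by norm_num) h1
    omega
  have hR : Tendsto (fun N : ℕ => (1 / 10 ^ 6 : ℝ) * N / (Real.log N) ^ 2) atTop atTop := by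
    have h1 : Tendsto (fun y : ℝ => y / (Real.log y) ^ 2) atTop atTop := by
      have h2 := (isLittleO_log_rpow_rpow_atTop (s := 1) 2 one_pos)
      have h3 := h2.tendsto_div_nhds_zero
      have h4 : Tendsto (fun y : ℝ => (Real.log y ^ (2 : ℝ) / y ^ (1 : ℝ))⁻¹) atTop atTop := by
        refine Tendsto.inv_tendsto_nhdsGT_zero ?_
        rw [tendsto_nhdsWithin_iff]
        refine ⟨h3, ?_⟩
        filter_upwards [eventually_gt_atTop 1] with y hy
        have : 0 < Real.log y := Real.log_pos hy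
        have : 0 < y := by linarith
        rw [Set.mem_Ioi]
        positivity
      refine h4.congr' ?_
      filter_upwards [eventually_gt_atTop 1] with y hy
      rw [inv_div, Real.rpow_one]
      norm_cast
    have h5 := (h1.comp tendsto_natCast_atTop_atTop).const_mul_atTop
      (show (0 : ℝ) < 1 / 10 ^ 6 by norm_num)
    refine h5.congr (fun N => ?_)
    simp only [Function.comp_apply]
    ring
  filter_upwards [htend.eventually good_sep', htend.eventually (eventually_ge_atTop 3),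
    htend.eventually (ev_pow 43 1), hR.eventually (eventually_ge_atTop 1),
    eventually_ge_atTop 6] with N hQ hk3 hk43 hR1 hN6
  set k : ℕ := Nat.log 2 (N / 6) / 10 with hk
  obtain ⟨Q, hQ1, hQsep, hQc⟩ := hQ
  set R : ℝ := 1 / 10 ^ 6 * N / (Real.log N) ^ 2 with hRdef
  have hdiv : N / 6 ≠ 0 := by omega
  have hxN : 6 * 2 ^ (10 * k) ≤ N := by
    have h1 : 2 ^ (10 * k) ≤ N / 6 := by
      refine le_trans (Nat.pow_le_pow_right (by norm_num) ?_) (Nat.pow_log_le_self 2 hdiv)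
      omega
    rw [Nat.le_div_iff_mul_le (by norm_num)] at h1
    omega
  have hNx : N < 6144 * 2 ^ (10 * k) := by
    have h1 : N / 6 < 2 ^ (Nat.log 2 (N / 6) + 1) := Nat.lt_pow_succ_log_self (by norm_num) _
    have h2 : 2 ^ (Nat.log 2 (N / 6) + 1) ≤ 2 ^ (10 * k + 10) :=
      Nat.pow_le_pow_right (by norm_num) (by omega)
    have h3 : 2 ^ (10 * k + 10) = 1024 * 2 ^ (10 * k) := by
      rw [pow_add]
      ring
    have h4 : N / 6 < 1024 * 2 ^ (10 * k) := by omega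
    have h5 : N < 6 * (1024 * 2 ^ (10 * k)) := by
      have := (Nat.div_lt_iff_lt_mul (by norm_num : 0 < 6)).mp h4
      linarith
    omega
  have hkR : (3 : ℝ) ≤ k := by exact_mod_cast hk3
  have hkx : 40 * k + 3 ≤ 2 * 2 ^ (10 * k) := by
    have h1 : (43 : ℝ) * k ≤ 2 ^ (10 * k) := by
      rw [pow_one] at hk43
      exact hk43.trans (pow_le_pow_right₀ (by norm_num) (by omega))
    have h2 : (40 * (k : ℝ) + 3) ≤ 2 * 2 ^ (10 * k) := by
      have : (0 : ℝ) < 2 ^ (10 * k) := by positivity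
      linarith
    exact_mod_cast h2
  -- comparison of `|Q|` and `R`
  have hNpos : (0 : ℝ) < N := by
    have : 0 < N := by omega
    exact_mod_cast this
  have hlogk : 6 * (k : ℝ) ≤ Real.log N := by
    have h1 : ((2 : ℝ) ^ (10 * k)) ≤ N := by
      have h2 : 2 ^ (10 * k) ≤ N := by
        have : 1 ≤ 2 ^ (10 * k) := Nat.one_le_two_pow
        omega
      exact_mod_cast h2
    have h3 := Real.log_le_log (by positivity) h1
    rw [Real.log_pow] at h3
    push_cast at h3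
    have h4 := Real.log_two_gt_d9
    nlinarith
  have hlogpos : 0 < Real.log N := by linarith
  have hm : 6 * R ≤ (Q.card : ℝ) := by
    refine le_trans ?_ hQc
    rw [hRdef, mul_div_assoc', div_le_div_iff₀ (by positivity) (by positivity)]
    have h1 : (N : ℝ) ≤ 6144 * 2 ^ (10 * k) := by exact_mod_cast hNx.le
    have h2 : 36 * (k : ℝ) ^ 2 ≤ (Real.log N) ^ 2 := by nlinarith
    have h3 : 6 * (1 / 10 ^ 6 * (N : ℝ)) * (840 * k ^ 2) ≤
        6 * (1 / 10 ^ 6 * (6144 * 2 ^ (10 * k))) * (840 * (k : ℝ) ^ 2) := by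
      refine mul_le_mul_of_nonneg_right ?_ (by positivity)
      linarith
    refine h3.trans ?_
    have h4 : (0 : ℝ) < 2 ^ (10 * k) := by positivity
    have h5 : 2 ^ (10 * k) * (36 * (k : ℝ) ^ 2) ≤ 2 ^ (10 * k) * (Real.log N) ^ 2 :=
      mul_le_mul_of_nonneg_left h2 h4.le
    nlinarith
  -- union bound
  set B : ℕ := ⌊(2 : ℝ) ^ R⌋₊ with hB
  have hIcc : Icc 1 N = Ico 1 (N + 1) := by
    ext n
    rw [mem_Icc, mem_Ico]
    omega
  have hcardN : (Ico 1 (N + 1)).card = N := by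
    rw [Nat.card_Ico]
    omega
  have hExp := Ex_ind (Ico 1 (N + 1)) (fun S => ∃ b m : ℕ,
      (b : ℝ) ≤ 2 ^ R ∧ ∑ n ∈ S, n.factorial = b * m ^ 2)
  rw [hcardN] at hExp
  rw [hIcc]
  have hle : Ex (Ico 1 (N + 1)) (fun S => ind (∃ b m : ℕ,
      (b : ℝ) ≤ 2 ^ R ∧ ∑ n ∈ S, n.factorial = b * m ^ 2)) ≤
      ((B : ℝ) + 1) * (2 : ℝ) ^ (-((Q.card : ℝ) / 2)) := by
    have h1 : Ex (Ico 1 (N + 1)) (fun S => ind (∃ b m : ℕ,
        (b : ℝ) ≤ 2 ^ R ∧ ∑ n ∈ S, n.factorial = b * m ^ 2)) ≤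
        Ex (Ico 1 (N + 1)) (fun S => ∑ b ∈ range (B + 1), ind (∀ q ∈ Q, SqC q b (F S))) := by
      refine Ex_mono (fun S _ => ?_)
      by_cases hS : ∃ b m : ℕ, (b : ℝ) ≤ 2 ^ R ∧ ∑ n ∈ S, n.factorial = b * m ^ 2
      · rw [ind_true hS]
        obtain ⟨b, m, hb, hbm⟩ := hS
        have hbB : b ∈ range (B + 1) := by
          rw [mem_range, Nat.lt_succ_iff, hB]
          exact Nat.le_floor hb
        have h2 : ind (∀ q ∈ Q, SqC q b (F S)) = 1 :=
          ind_true (fun q _ => SqC_of_eq (m := m) hbm)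
        rw [← h2]
        exact single_le_sum (f := fun b => ind (∀ q ∈ Q, SqC q b (F S)))
          (fun _ _ => ind_nonneg _) hbB
      · rw [ind_false hS]
        exact sum_nonneg (fun _ _ => ind_nonneg _)
    refine h1.trans ?_
    rw [Ex_sum]
    refine (sum_le_card_nsmul _ _ _ (fun b _ =>
      one_b k N b hk3 hxN Q hQ1 hQsep hkx)).trans (le_of_eq ?_)
    rw [card_range, nsmul_eq_mul]
    push_cast
    ring
  have hBR : (B : ℝ) + 1 ≤ 2 ^ (R + 1) := by
    have h1 : (B : ℝ) ≤ 2 ^ R := Nat.floor_le (by positivity)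
    have h2 : (1 : ℝ) ≤ 2 ^ R := Real.one_le_rpow (by norm_num) (by linarith)
    rw [Real.rpow_add (by norm_num), Real.rpow_one]
    linarith
  have hfin : ((B : ℝ) + 1) * (2 : ℝ) ^ (-((Q.card : ℝ) / 2)) ≤ 2 ^ (-R) := by
    calc ((B : ℝ) + 1) * (2 : ℝ) ^ (-((Q.card : ℝ) / 2))
        ≤ 2 ^ (R + 1) * (2 : ℝ) ^ (-((Q.card : ℝ) / 2)) :=
          mul_le_mul_of_nonneg_right hBR (by positivity)
      _ = (2 : ℝ) ^ (R + 1 + -((Q.card : ℝ) / 2)) := by rw [← Real.rpow_add (by norm_num)]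
      _ ≤ 2 ^ (-R) := Real.rpow_le_rpow_of_exponent_le (by norm_num) (by linarith)
  have h2 := hle.trans hfin
  rw [hExp, div_le_iff₀ (by positivity)] at h2
  refine h2.trans (le_of_eq ?_)
  rw [← Real.rpow_natCast, ← Real.rpow_add (by norm_num)]
  congr 1
  ring

end H46.PF
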