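import Pool.Agent.H46.PF.Pri
import Pool.Agent.H46.PF.Col

/-!
# Sums of distinct factorials: a separated set of good primes
-/

namespace H46.PF

open Finset Filter

theorem Col_nonneg (q : ℕ) (J : Finset ℕ) : 0 ≤ Col q J :=
  Ex_nonneg (fun _ _ => Ex_nonneg (fun _ _ => ind_nonneg _))

/-- Markov's inequality for the collision probabilities. -/
theorem bad_card (P : Finset ℕ) (J : Finset ℕ) (s κ : ℝ)
    (hs : ∑ q ∈ P, Col q J ≤ s) :
    ((P.filter (fun q => ¬ Col q J ≤ κ)).card : ℝ) * κ ≤ s := by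
  refine le_trans ?_ hs
  rw [← nsmul_eq_mul]
  refine (card_nsmul_le_sum (P.filter (fun q => ¬ Col q J ≤ κ)) (fun q => Col q J) κ
    (fun q hq => ?_)).trans ?_
  · have := (mem_filter.mp hq).2
    exact (not_le.mp this).le
  · exact sum_le_sum_of_subset_of_nonneg (filter_subset _ _) (fun q _ _ => Col_nonneg q J)

theorem pigeon_class (G : Finset ℕ) (L : ℕ) (hL : 0 < L) (v : ℝ) (hv : (L : ℝ) * v ≤ G.card) :
    ∃ r, v ≤ ((G.filter (fun q => q % L = r)).card : ℝ) := by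
  by_contra hcon
  push Not at hcon
  have h1 : G.card = ∑ r ∈ range L, (G.filter (fun q => q % L = r)).card :=
    card_eq_sum_card_fiberwise (fun q _ => by
      simpa using Nat.mod_lt q hL)
  have h2 : (G.card : ℝ) < L * v := by
    rw [h1]
    push_cast
    calc ∑ r ∈ range L, ((G.filter (fun q => q % L = r)).card : ℝ) < ∑ _r ∈ range L, v :=
          sum_lt_sum_of_nonempty ⟨0, by simpa using hL⟩ (fun r _ => hcon r)
      _ = L * v := by rw [sum_const, card_range, nsmul_eq_mul]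
  linarith

theorem class_sep {L p q : ℕ} (h : p % L = q % L) (hlt : p < q) : p + L ≤ q := by
  have h1 : L ∣ q - p := (Nat.modEq_iff_dvd' hlt.le).mp h
  have h2 := Nat.le_of_dvd (by omega) h1
  omega

theorem big_pow (k : ℕ) (hk1 : 1 ≤ k) (hk : (41 ^ 5 : ℝ) * (k : ℝ) ^ 5 ≤ 2 ^ k) :
    (40 * k + 1) * (40 * k + 1).factorial < (2 * 2 ^ (10 * k)) ^ (k + 1) := by
  have h1 : (41 * k) ^ 5 ≤ 2 ^ k := by
    have : ((41 * k : ℕ) : ℝ) ^ 5 ≤ (2 : ℝ) ^ k := by
      push_cast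
      rw [mul_pow]
      exact hk
    exact_mod_cast this
  have h2 : (40 * k + 1) * (40 * k + 1).factorial ≤ (41 * k) ^ (45 * k) := by
    calc (40 * k + 1) * (40 * k + 1).factorial
        ≤ (40 * k + 1) * (40 * k + 1) ^ (40 * k + 1) :=
          Nat.mul_le_mul_left _ (Nat.factorial_le_pow _)
      _ = (40 * k + 1) ^ (40 * k + 2) := by rw [← pow_succ']
      _ ≤ (41 * k) ^ (40 * k + 2) := Nat.pow_le_pow_left (by omega) _
      _ ≤ (41 * k) ^ (45 * k) := Nat.pow_le_pow_right (by omega) (by omega)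
  have h3 : (41 * k) ^ (45 * k) ≤ 2 ^ (k * (9 * k)) := by
    calc (41 * k) ^ (45 * k) = ((41 * k) ^ 5) ^ (9 * k) := by
          rw [← pow_mul]
          congr 1
          ring
      _ ≤ (2 ^ k) ^ (9 * k) := Nat.pow_le_pow_left h1 _
      _ = 2 ^ (k * (9 * k)) := by rw [← pow_mul]
  have h4 : 2 ^ (k * (9 * k)) < (2 * 2 ^ (10 * k)) ^ (k + 1) := by
    rw [← pow_succ', ← pow_mul]
    exact Nat.pow_lt_pow_right (by norm_num) (by nlinarith)
  omega

theorem good_sep' : ∀ᶠ k : ℕ in Filter.atTop, ∃ Q : Finset ℕ,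
    (∀ q ∈ Q, q.Prime ∧ 2 * 2 ^ (10 * k) < q ∧ q ≤ 6 * 2 ^ (10 * k) ∧
      Col q (Ico 2 (20 * k + 2)) ≤ 1 / 2 ^ (9 * k) ∧
      Col q (Ico (20 * k + 2) (40 * k + 2)) ≤ 1 / 2 ^ (9 * k)) ∧
    (∀ p ∈ Q, ∀ q ∈ Q, p < q → p + (40 * k + 2) ≤ q) ∧
    (2 : ℝ) ^ (10 * k) / (840 * k ^ 2) ≤ (Q.card : ℝ) := by
  filter_upwards [primes_many, ev_pow (41 ^ 5) 5, ev_pow 1000 2, eventually_ge_atTop 1]
    with k hpr h5 h2 hk1
  have hk1' : (1 : ℝ) ≤ k := by exact_mod_cast hk1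
  set x : ℕ := 2 ^ (10 * k) with hx
  have hX : ((x : ℕ) : ℝ) = (2 : ℝ) ^ (10 * k) := by rw [hx]; push_cast; rfl
  set P : Finset ℕ := (Ioc (2 * x) (6 * x)).filter Nat.Prime with hP
  have hPmem : ∀ q ∈ P, q.Prime ∧ 2 * x < q := by
    intro q hq
    rw [hP, mem_filter, mem_Ioc] at hq
    exact ⟨hq.2, hq.1.1⟩
  have hcard : (P.card : ℝ) ≤ 4 * x := by
    have h1 : P.card ≤ (Ioc (2 * x) (6 * x)).card := card_filter_le _ _
    rw [Nat.card_Ioc] at h1
    have h3 : P.card ≤ 4 * x := by omega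
    exact_mod_cast h3
  have hkx : 40 * k + 1 ≤ 2 * x := by
    have h1 : (40 * (k : ℝ) + 1) ≤ 2 * x := by
      have h3 : (2 : ℝ) ^ k ≤ x := by
        rw [hX]
        exact pow_le_pow_right₀ (by norm_num) (by omega)
      nlinarith
    exact_mod_cast h1
  have hm := big_pow k hk1 h5
  have hJ1 : Ico 2 (20 * k + 2) ⊆ Icc 2 (40 * k + 1) := by
    intro j hj
    rw [mem_Ico] at hj
    rw [mem_Icc]
    omega
  have hJ2 : Ico (20 * k + 2) (40 * k + 2) ⊆ Icc 2 (40 * k + 1) := by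
    intro j hj
    rw [mem_Ico] at hj
    rw [mem_Icc]
    omega
  have hs1 := col_sum (D := 40 * k + 1) (y := 2 * x) (m := k) hkx (by
    have : 1 ≤ x := Nat.one_le_two_pow
    omega) P hPmem hm _ hJ1
  have hs2 := col_sum (D := 40 * k + 1) (y := 2 * x) (m := k) hkx (by
    have : 1 ≤ x := Nat.one_le_two_pow
    omega) P hPmem hm _ hJ2
  have hfrac : (P.card : ℝ) / 2 ^ (20 * k) + k ≤ k + 4 := by
    have h1 : (P.card : ℝ) / 2 ^ (20 * k) ≤ 4 := by
      rw [div_le_iff₀ (by positivity)]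
      have h3 : (x : ℝ) ≤ 2 ^ (20 * k) := by
        rw [hX]
        exact pow_le_pow_right₀ (by norm_num) (by omega)
      linarith
    linarith
  have hc1 : (Ico 2 (20 * k + 2)).card = 20 * k := by
    rw [Nat.card_Ico]
    omega
  have hc2 : (Ico (20 * k + 2) (40 * k + 2)).card = 20 * k := by
    rw [Nat.card_Ico]
    omega
  rw [hc1] at hs1
  rw [hc2] at hs2
  have hb1 := bad_card P _ _ (1 / 2 ^ (9 * k)) (hs1.trans hfrac)
  have hb2 := bad_card P _ _ (1 / 2 ^ (9 * k)) (hs2.trans hfrac)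
  set B1 := P.filter (fun q => ¬ Col q (Ico 2 (20 * k + 2)) ≤ 1 / 2 ^ (9 * k)) with hB1
  set B2 := P.filter (fun q => ¬ Col q (Ico (20 * k + 2) (40 * k + 2)) ≤ 1 / 2 ^ (9 * k)) with hB2
  have hbb1 : (B1.card : ℝ) ≤ (k + 4) * 2 ^ (9 * k) := by
    rw [mul_one_div, div_le_iff₀ (by positivity)] at hb1
    exact hb1
  have hbb2 : (B2.card : ℝ) ≤ (k + 4) * 2 ^ (9 * k) := by
    rw [mul_one_div, div_le_iff₀ (by positivity)] at hb2
    exact hb2
  set G := P.filter (fun q => Col q (Ico 2 (20 * k + 2)) ≤ 1 / 2 ^ (9 * k) ∧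
      Col q (Ico (20 * k + 2) (40 * k + 2)) ≤ 1 / 2 ^ (9 * k)) with hG
  have hPG : P ⊆ G ∪ (B1 ∪ B2) := by
    intro q hq
    by_cases h1 : Col q (Ico 2 (20 * k + 2)) ≤ 1 / 2 ^ (9 * k)
    · by_cases h3 : Col q (Ico (20 * k + 2) (40 * k + 2)) ≤ 1 / 2 ^ (9 * k)
      · exact mem_union_left _ (mem_filter.mpr ⟨hq, h1, h3⟩)
      · exact mem_union_right _ (mem_union_right _ (mem_filter.mpr ⟨hq, h3⟩))
    · exact mem_union_right _ (mem_union_left _ (mem_filter.mpr ⟨hq, h1⟩))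
  have hGcard : (x : ℝ) / (20 * k) ≤ (G.card : ℝ) := by
    have h1 : P.card ≤ G.card + (B1.card + B2.card) :=
      (card_le_card hPG).trans ((card_union_le _ _).trans
        (Nat.add_le_add_left (card_union_le _ _) _))
    have h3 : (P.card : ℝ) ≤ G.card + (B1.card + B2.card) := by exact_mod_cast h1
    have h4 : (x : ℝ) / (10 * k) ≤ P.card := by
      rw [hX]
      exact hpr
    have h6 : 2 * ((k + 4) * 2 ^ (9 * k)) ≤ (x : ℝ) / (20 * k) := by
      rw [le_div_iff₀ (by positivity), hX]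
      have h7 : (2 : ℝ) ^ (10 * k) = 2 ^ k * 2 ^ (9 * k) := by
        rw [← pow_add]
        congr 1
        ring
      rw [h7]
      have h8 : 2 * ((k : ℝ) + 4) * (20 * k) ≤ 2 ^ k := by nlinarith
      have h9 : (0 : ℝ) < 2 ^ (9 * k) := by positivity
      nlinarith
    have h7 : (x : ℝ) / (10 * k) = (x : ℝ) / (20 * k) + (x : ℝ) / (20 * k) := by
      field_simp
      ring
    linarith
  obtain ⟨r, hr⟩ := pigeon_class G (40 * k + 2) (by omega) ((x : ℝ) / (840 * k ^ 2)) (by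
    refine le_trans ?_ hGcard
    push_cast
    rw [mul_div_assoc', div_le_div_iff₀ (by positivity) (by positivity)]
    have h1 : (0 : ℝ) ≤ x := by positivity
    have h3 : (40 * (k : ℝ) + 2) * (20 * k) ≤ 840 * k ^ 2 := by nlinarith
    nlinarith)
  refine ⟨G.filter (fun q => q % (40 * k + 2) = r), ?_, ?_, ?_⟩
  · intro q hq
    have h1 := (mem_filter.mp hq).1
    rw [hG, mem_filter, hP, mem_filter, mem_Ioc] at h1
    exact ⟨h1.1.2, h1.1.1.1, h1.1.1.2, h1.2.1, h1.2.2⟩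
  · intro p hp q hq hlt
    refine class_sep ?_ hlt
    rw [(mem_filter.mp hp).2, (mem_filter.mp hq).2]
  · rw [← hX]
    exact hr

end H46.PF
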