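import Pool.Agent.H46.PF.Ex

/-!
# Sums of distinct factorials: many primes in `(2x, 6x]`
-/

namespace H46.PF

open Finset Filter

theorem ev_pow (c : ℝ) (j : ℕ) : ∀ᶠ k : ℕ in atTop, c * (k : ℝ) ^ j ≤ 2 ^ k := by
  have h := tendsto_pow_const_div_const_pow_of_one_lt j (r := 2) (by norm_num)
  have h1 : ∀ᶠ k : ℕ in atTop, (k : ℝ) ^ j / 2 ^ k < 1 / (|c| + 1) :=
    h.eventually (gt_mem_nhds (by positivity))
  filter_upwards [h1] with k hk
  rw [div_lt_div_iff₀ (by positivity) (by positivity)] at hk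
  have h2 : c * (k : ℝ) ^ j ≤ (|c| + 1) * (k : ℝ) ^ j :=
    mul_le_mul_of_nonneg_right (by linarith [le_abs_self c]) (by positivity)
  linarith

theorem theta_diff (x : ℕ) (hx : 1 ≤ x) :
    Chebyshev.theta ((6 * x : ℕ) : ℝ) - Chebyshev.theta ((2 * x : ℕ) : ℝ) ≤
      (((Ioc (2 * x) (6 * x)).filter Nat.Prime).card : ℝ) * Real.log (6 * x) := by
  rw [Chebyshev.theta, Chebyshev.theta, Nat.floor_natCast, Nat.floor_natCast]
  have hu : (Ioc 0 (6 * x)).filter Nat.Prime =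
      (Ioc 0 (2 * x)).filter Nat.Prime ∪ (Ioc (2 * x) (6 * x)).filter Nat.Prime := by
    rw [← filter_union, Ioc_union_Ioc_eq_Ioc (by omega) (by omega)]
  have hd : Disjoint ((Ioc 0 (2 * x)).filter Nat.Prime) ((Ioc (2 * x) (6 * x)).filter Nat.Prime) := by
    rw [disjoint_left]
    intro a h1 h2
    rw [mem_filter, mem_Ioc] at h1 h2
    omega
  rw [hu, sum_union hd, add_sub_cancel_left, ← nsmul_eq_mul]
  refine sum_le_card_nsmul _ _ _ (fun p hp => ?_)
  rw [mem_filter, mem_Ioc] at hp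
  refine Real.log_le_log (by exact_mod_cast hp.2.pos) ?_
  exact_mod_cast hp.1.2

theorem primes_many : ∀ᶠ k : ℕ in Filter.atTop, (2 : ℝ) ^ (10 * k) / (10 * k) ≤
    (((Ioc (2 * 2 ^ (10 * k)) (6 * 2 ^ (10 * k))).filter Nat.Prime).card : ℝ) := by
  filter_upwards [ev_pow 875 1, eventually_ge_atTop 1] with k hk hk1
  have hk1' : (1 : ℝ) ≤ k := by exact_mod_cast hk1
  rw [pow_one] at hk
  set x : ℕ := 2 ^ (10 * k) with hx
  have hx1 : 1 ≤ x := Nat.one_le_two_pow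
  have hX : ((x : ℕ) : ℝ) = (2 : ℝ) ^ (10 * k) := by rw [hx]; push_cast; rfl
  have hl2 := Real.log_two_lt_d9
  have hl2' := Real.log_two_gt_d9
  have h1 := theta_diff x hx1
  have h2 := Chebyshev.theta_ge (6 * x)
  have h3 := Chebyshev.theta_le_log4_mul_x (x := ((2 * x : ℕ) : ℝ)) (by positivity)
  have hxpos : (0 : ℝ) < x := by exact_mod_cast hx1
  have hlog8 : Real.log (8 * (x : ℝ)) = (10 * k + 3) * Real.log 2 := by
    rw [hX]
    have : (8 : ℝ) * 2 ^ (10 * k) = 2 ^ (10 * k + 3) := by rw [pow_add]; ring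
    rw [this, Real.log_pow]
    push_cast
    ring
  have hlog8' : Real.log (8 * (x : ℝ)) ≤ 7 * k + 3 := by
    rw [hlog8]
    nlinarith
  have hlog6 : Real.log (6 * (x : ℝ)) ≤ Real.log (8 * (x : ℝ)) :=
    Real.log_le_log (by positivity) (by linarith)
  have hlog61 : Real.log (((6 * x : ℕ) : ℝ) + 1) ≤ 7 * k + 3 := by
    refine le_trans (Real.log_le_log (by positivity) ?_) hlog8'
    push_cast
    have : (1 : ℝ) ≤ x := by exact_mod_cast hx1
    linarith
  have hlog4 : Real.log 4 = 2 * Real.log 2 := by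
    have : (4 : ℝ) = 2 ^ 2 := by norm_num
    rw [this, Real.log_pow]
    push_cast
    ring
  have hsqrt : Real.sqrt ((6 * x : ℕ) : ℝ) ≤ 3 * 2 ^ (5 * k) := by
    rw [Real.sqrt_le_left (by positivity)]
    push_cast
    rw [hX, mul_pow, ← pow_mul]
    have : 5 * k * 2 = 10 * k := by ring
    rw [this]
    have : (0 : ℝ) < 2 ^ (10 * k) := by positivity
    linarith
  have hlogn : Real.log ((6 * x : ℕ) : ℝ) ≤ 7 * k + 3 := by
    push_cast
    exact hlog6.trans hlog8'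
  have hlog0 : 0 ≤ Real.log ((6 * x : ℕ) : ℝ) := by
    refine Real.log_nonneg ?_
    have : 1 ≤ 6 * x := by omega
    exact_mod_cast this
  have hsm : 2 * Real.sqrt ((6 * x : ℕ) : ℝ) * Real.log ((6 * x : ℕ) : ℝ) ≤
      2 * (3 * 2 ^ (5 * k)) * (7 * k + 3) := by
    refine mul_le_mul (by linarith) hlogn hlog0 (by positivity)
  have hP : (1 : ℝ) ≤ 2 ^ (5 * k) := one_le_pow₀ (by norm_num)
  have hkP : 875 * (k : ℝ) ≤ 2 ^ (5 * k) := by
    refine hk.trans ?_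
    exact pow_le_pow_right₀ (by norm_num) (by omega)
  have hPX : (2 : ℝ) ^ (5 * k) * 2 ^ (5 * k) = x := by
    rw [hX, ← pow_add]
    congr 1
    ring
  have hsmall : (7 * (k : ℝ) + 3) + 2 * (3 * 2 ^ (5 * k)) * (7 * k + 3) ≤ 0.08 * x := by
    have a1 : (7 * (k : ℝ) + 3) ≤ 10 * k := by linarith
    have a2 : (7 * (k : ℝ) + 3) + 2 * (3 * 2 ^ (5 * k)) * (7 * k + 3) ≤ 70 * k * 2 ^ (5 * k) := by
      have b1 : (7 * (k : ℝ) + 3) ≤ 10 * k * 2 ^ (5 * k) := by nlinarith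
      have b2 : 2 * (3 * 2 ^ (5 * k)) * (7 * (k : ℝ) + 3) ≤ 2 * (3 * 2 ^ (5 * k)) * (10 * k) :=
        mul_le_mul_of_nonneg_left a1 (by positivity)
      nlinarith
    have a3 : 875 * (k : ℝ) * 2 ^ (5 * k) ≤ 2 ^ (5 * k) * 2 ^ (5 * k) :=
      mul_le_mul_of_nonneg_right hkP (by positivity)
    rw [hPX] at a3
    linarith
  push_cast at h1 h2 h3 hlog61 hsm
  set N : ℝ := (((Ioc (2 * x) (6 * x)).filter Nat.Prime).card : ℝ) with hN
  have hN0 : 0 ≤ N := by positivity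
  have h5 : N * Real.log (6 * x) ≤ N * ((10 * k + 3) * Real.log 2) := by
    rw [← hlog8]
    exact mul_le_mul_of_nonneg_left hlog6 hN0
  rw [hlog4] at h3
  have h6 : 1.3 * (x : ℝ) ≤ N * ((10 * k + 3) * Real.log 2) := by
    nlinarith
  have h7 : ((10 * (k : ℝ) + 3) * Real.log 2) ≤ 13 * k := by nlinarith
  have h8 : 1.3 * (x : ℝ) ≤ N * (13 * k) := h6.trans (mul_le_mul_of_nonneg_left h7 hN0)
  rw [← hX, div_le_iff₀ (by positivity)]
  linarith

end H46.PF
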